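import Pool.Agent.L5helper58.KS.Tab
import Pool.Agent.L5helper35.MIP.Model

/-!
Halting computations of nondeterministic machines with one tape, and formulations for them.
-/

set_option autoImplicit false

namespace Pool.Agent.L5helper35.KH

open Pool.Agent.L5helper58.KS (Tab Config move)
open Pool.Agent.L5helper35.MIP (Formulation)

/-- The configuration after the step with the transition `e`. -/
def after {n : ℕ} (e : Tab n) (c : Config) : Config :=
  ⟨e.2.2.1.val, c.head + move e.2.2.2.2, Function.update c.tape c.head e.2.2.2.1.val⟩

/-- The transitions of the list `l` can be used one after the other, from the configuration `c` on, and lead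
to the configuration `c'`. -/
def Leads {n : ℕ} : List (Tab n) → Config → Config → Prop
  | [], c, c' => c = c'
  | e :: l, c, c' => (c.state = e.1.val ∧ c.tape c.head = e.2.1.val) ∧ Leads l (after e c) c'

/-- The list `l` of transitions is a halting computation of the machine with the table `u`: it consists of
transitions of this machine, begins with the blank tape in the state `0`, and ends in the state `1`. -/
def IsHalting {n : ℕ} (u : Tab n → Bool) (l : List (Tab n)) : Prop :=
  (∀ e ∈ l, u e = true) ∧ ∃ c, Leads l ⟨0, 0, fun _ => 0⟩ c ∧ c.state = 1

/-- The halting computations with at most `k` steps. -/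
def Comp {n : ℕ} (u : Tab n → Bool) (k : ℕ) : Type :=
  {l : List (Tab n) // l.length ≤ k ∧ IsHalting u l}

/-- The number of steps of the computation `l` which are not possible in the machine with the table `x`. -/
def forbidden {n : ℕ} (x : Tab n → Bool) (l : List (Tab n)) : ℕ := l.countP fun e => !x e

/-- There are a machine `u` with `n` states and `n` symbols and a list of `T ≥ 1` machines `x i`, contained in
it, such that in every halting computation of `u`, of any length, at least `k / 3` steps are not possible
in `x i`; but every formulation for the halting computations of `u` with at most `k` steps certifies only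
for a fraction `size / n ^ E` of the machines `x i` that at least `n ^ (-E)` steps are not possible. -/
def GapHard (n k : ℕ) (E : ℝ) : Prop :=
  ∃ (u : Tab n → Bool) (T : ℕ) (x : Fin T → Tab n → Bool), 0 < T ∧
    (∀ i, (∀ e, x i e = true → u e = true) ∧
      ∀ l, IsHalting u l → k ≤ 3 * forbidden (x i) l) ∧
    ∀ F : Formulation (Comp u k),
      (Nat.card {i : Fin T // F.Certifies (fun h => (forbidden (x i) h.1 : ℝ)) ((n : ℝ) ^ (-E))} : ℝ) ≤
        F.size / (n : ℝ) ^ E * T

end Pool.Agent.L5helper35.KH
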