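import Pool.Agent.L5helper35.MIP.Model

/-!
Formulations of paths in layered graphs.
-/

set_option autoImplicit false

namespace Pool.Agent.L5helper35.KH

open Finset
open Pool.Agent.L5helper35.MIP (Formulation)

/-- A formulation with nonnegative variables and equations. -/
theorem mkF {H P E Q : Type} [Fintype P] [Fintype E] [Fintype Q] (C : P → Q → E → ℝ)
    (f : P → Q → ℝ) (part : H → P) (pt : H → E → ℝ) (h0 : ∀ h e, 0 ≤ pt h e)
    (h1 : ∀ h q, ∑ e, C (part h) q e * pt h e = f (part h) q) :
    ∃ F : Formulation H, F.size = Fintype.card P * (Fintype.card E + 1) ∧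
      ∀ (V : H → ℝ) (γ : ℝ) (o : P → E → ℝ), (∀ h, ∑ e, o (part h) e * pt h e = V h) →
        (∀ p (y : E → ℝ), (∀ e, 0 ≤ y e) → (∀ q, ∑ e, C p q e * y e = f p q) →
          γ ≤ ∑ e, o p e * y e) → F.Certifies V γ := by
  classical
  let eP := Fintype.equivFin P
  let eE := Fintype.equivFin E
  let eQ := Fintype.equivFin Q
  let F : Formulation H :=
    { parts := Fintype.card P
      dim := fun _ => Fintype.card E
      ineqs := fun _ => Fintype.card E
      eqs := fun _ => Fintype.card Q
      A := fun _ i j => if i = j then -1 else 0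
      b := fun _ _ => 0
      C := fun p i j => C (eP.symm p) (eQ.symm i) (eE.symm j)
      f := fun p i => f (eP.symm p) (eQ.symm i)
      part := fun h => eP (part h)
      point := fun h j => pt h (eE.symm j)
      point_le := fun h i => by
        simp only [dotProduct, ite_mul, zero_mul, Finset.sum_ite_eq, mem_univ, if_true]
        have := h0 h (eE.symm i)
        linarith
      point_eq := fun h i => by
        simp only [dotProduct, Equiv.symm_apply_apply]
        rw [← h1 h (eQ.symm i)]
        exact Equiv.sum_comp eE.symm fun e => C (part h) (eQ.symm i) e * pt h e }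
  refine ⟨F, ?_, ?_⟩
  · change ∑ p : Fin (Fintype.card P), (Fintype.card E + 1) = _
    simp
  · intro V γ o hV hγ
    refine ⟨fun p j => o (eP.symm p) (eE.symm j), fun _ => 0, ?_, ?_⟩
    · intro h
      rw [← hV h, add_zero]
      change ∑ j, o (eP.symm (eP (part h))) (eE.symm j) * pt h (eE.symm j) = _
      rw [Equiv.symm_apply_apply]
      exact Equiv.sum_comp eE.symm fun e => o (part h) e * pt h e
    · intro p y hy hy'
      have h2 := hγ (eP.symm p) (fun e => y (eE e)) (fun e => by
        have h3 : ∑ j, (if eE e = j then (-1 : ℝ) else 0) * y j ≤ 0 := hy (eE e)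
        simp only [ite_mul, zero_mul, Finset.sum_ite_eq, mem_univ, if_true] at h3
        linarith) (fun q => by
        have h3 : ∑ j, C (eP.symm p) (eQ.symm (eQ q)) (eE.symm j) * y j = f (eP.symm p) (eQ.symm (eQ q)) :=
          hy' (eQ q)
        rw [Equiv.symm_apply_apply] at h3
        rw [← h3, ← Equiv.sum_comp eE.symm fun e => C (eP.symm p) q e * y (eE e)]
        simp only [Equiv.apply_symm_apply])
      rw [add_zero]
      refine h2.trans (le_of_eq ?_)
      change _ = ∑ j, o (eP.symm p) (eE.symm j) * y j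
      rw [← Equiv.sum_comp eE.symm fun e => o (eP.symm p) e * y (eE e)]
      simp only [Equiv.apply_symm_apply]

section

variable {W Lb : Type} [Fintype W] [Fintype Lb]

open Classical in
/-- minimal costs of paths, but `γ` if there is no path -/
noncomputable def rho (ok : ℕ → W → Lb → W → Prop) (w0 : W) (co : Lb → ℝ) (γ : ℝ) : ℕ → W → ℝ
  | 0, w => if w = w0 then 0 else γ
  | j + 1, w => if h : (univ.filter fun p : W × Lb => ok j p.1 p.2 w).Nonempty then
      (univ.filter fun p : W × Lb => ok j p.1 p.2 w).inf' h fun p => rho ok w0 co γ j p.1 + co p.2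
      else γ

theorem rho_le (ok : ℕ → W → Lb → W → Prop) (w0 : W) (co : Lb → ℝ) (γ : ℝ) {j : ℕ} {u v : W}
    {l : Lb} (h : ok j u l v) : rho ok w0 co γ (j + 1) v ≤ rho ok w0 co γ j u + co l := by
  classical
  rw [rho]
  split_ifs with h'
  · exact Finset.inf'_le (fun p : W × Lb => rho ok w0 co γ j p.1 + co p.2) (b := (u, l))
      (mem_filter.2 ⟨mem_univ _, h⟩)
  · exact absurd ⟨(u, l), mem_filter.2 ⟨mem_univ _, h⟩⟩ h'

theorem rho_path (ok : ℕ → W → Lb → W → Prop) (w0 : W) (co : Lb → ℝ) (hco : ∀ l, 0 ≤ co l)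
    (γ : ℝ) (lb0 : Lb) (j : ℕ) : ∀ w, γ ≤ rho ok w0 co γ j w ∨ ∃ (nd : ℕ → W) (lb : ℕ → Lb),
      nd 0 = w0 ∧ (∀ i < j, ok i (nd i) (lb i) (nd (i + 1))) ∧ nd j = w ∧
      ∑ i ∈ range j, co (lb i) = rho ok w0 co γ j w := by
  classical
  induction j with
  | zero =>
    intro w
    rw [rho]
    by_cases h : w = w0
    · right
      rw [if_pos h]
      exact ⟨fun _ => w0, fun _ => lb0, rfl, fun i hi => absurd hi (Nat.not_lt_zero i), h.symm,
        by simp⟩
    · left
      rw [if_neg h]
  | succ j ih =>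
    intro w
    rw [rho]
    split_ifs with h
    · obtain ⟨p, hp, hpe⟩ := Finset.exists_mem_eq_inf' h
        (fun p : W × Lb => rho ok w0 co γ j p.1 + co p.2)
      rw [hpe]
      rw [mem_filter] at hp
      rcases ih p.1 with h1 | ⟨nd, lb, h1, h2, h3, h4⟩
      · left
        have := hco p.2
        linarith
      · right
        refine ⟨fun i => if i ≤ j then nd i else w, fun i => if i < j then lb i else p.2, ?_, ?_, ?_, ?_⟩
        · simp only [Nat.zero_le, if_true]
          exact h1
        · intro i hi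
          rcases Nat.lt_succ_iff_lt_or_eq.mp hi with h5 | h5
          · simp only
            rw [if_pos h5.le, if_pos h5, if_pos (by omega)]
            exact h2 i h5
          · subst h5
            simp only [le_refl, if_true, lt_irrefl, if_false]
            rw [if_neg (by omega), h3]
            exact hp.2
        · simp only
          rw [if_neg (by omega)]
        · rw [Finset.sum_range_succ]
          have e1 : ∑ i ∈ range j, co (if i < j then lb i else p.2) = ∑ i ∈ range j, co (lb i) := by
            refine Finset.sum_congr rfl fun i hi => ?_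
            rw [if_pos (mem_range.1 hi)]
          rw [e1, h4]
          simp
    · left
      exact le_rfl

/-- The value of a flow is at least the minimal cost of a path. -/
theorem flow_bound (m : ℕ) (hm : 1 ≤ m) (ok : ℕ → W → Lb → W → Prop) (w0 : W) (co : Lb → ℝ)
    (hco : ∀ l, 0 ≤ co l) (γ : ℝ)
    (hpath : ∀ (nd : ℕ → W) (lb : ℕ → Lb), nd 0 = w0 →
      (∀ j < m, ok j (nd j) (lb j) (nd (j + 1))) → γ ≤ ∑ j ∈ range m, co (lb j))
    (Y : ℕ → W → Lb → W → ℝ) (hY : ∀ j u l v, 0 ≤ Y j u l v)
    (hok : ∀ j u l v, j < m → ¬ (ok j u l v ∧ (j = 0 → u = w0)) → Y j u l v = 0)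
    (hcons : ∀ j w, j + 1 < m → ∑ u, ∑ l, Y j u l w = ∑ l, ∑ v, Y (j + 1) w l v)
    (hst : ∑ l, ∑ v, Y 0 w0 l v = 1) :
    γ ≤ ∑ j ∈ range m, ∑ u, ∑ l, ∑ v, Y j u l v * co l := by
  classical
  have hne : Nonempty Lb := by
    by_contra h
    rw [not_nonempty_iff] at h
    rw [Finset.sum_of_isEmpty] at hst
    norm_num at hst
  obtain ⟨lb0⟩ := hne
  set ρ := rho ok w0 co γ with hρ
  -- the last layer
  have hlast : ∀ w, γ ≤ ρ m w := by
    intro w
    rcases rho_path ok w0 co hco γ lb0 m w with h | ⟨nd, lb, h1, h2, h3, h4⟩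
    · exact h
    · rw [hρ, ← h4]
      exact hpath nd lb h1 h2
  -- total flow
  have htot : ∀ j, j < m → ∑ u, ∑ l, ∑ v, Y j u l v = 1 := by
    intro j
    induction j with
    | zero =>
      intro h0
      rw [← hst]
      refine Finset.sum_eq_single w0 (fun u _ hu => ?_) (fun h => absurd (mem_univ _) h)
      refine Finset.sum_eq_zero fun l _ => Finset.sum_eq_zero fun v _ => ?_
      exact hok 0 u l v h0 fun h => hu (h.2 rfl)
    | succ j ih =>
      intro hj
      rw [← ih (by omega)]
      calc ∑ u, ∑ l, ∑ v, Y (j + 1) u l v = ∑ w, ∑ u, ∑ l, Y j u l w :=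
            Finset.sum_congr rfl fun w _ => (hcons j w hj).symm
        _ = ∑ u, ∑ w, ∑ l, Y j u l w := Finset.sum_comm
        _ = _ := Finset.sum_congr rfl fun u _ => Finset.sum_comm
  have hstep : ∀ j, j < m → ∑ u, ∑ l, ∑ v, Y j u l v * ρ (j + 1) v ≤
      ∑ u, ∑ l, ∑ v, Y j u l v * ρ j u + ∑ u, ∑ l, ∑ v, Y j u l v * co l := by
    intro j hj
    rw [← Finset.sum_add_distrib]
    refine Finset.sum_le_sum fun u _ => ?_
    rw [← Finset.sum_add_distrib]
    refine Finset.sum_le_sum fun l _ => ?_
    rw [← Finset.sum_add_distrib]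
    refine Finset.sum_le_sum fun v _ => ?_
    rw [← mul_add]
    by_cases h : ok j u l v ∧ (j = 0 → u = w0)
    · exact mul_le_mul_of_nonneg_left (rho_le ok w0 co γ h.1) (hY j u l v)
    · rw [hok j u l v hj h, zero_mul, zero_mul]
  have hmove : ∀ j, j + 1 < m → ∑ u, ∑ l, ∑ v, Y (j + 1) u l v * ρ (j + 1) u =
      ∑ u, ∑ l, ∑ v, Y j u l v * ρ (j + 1) v := by
    intro j hj
    calc ∑ u, ∑ l, ∑ v, Y (j + 1) u l v * ρ (j + 1) u
        = ∑ w, (∑ l, ∑ v, Y (j + 1) w l v) * ρ (j + 1) w := by
          refine Finset.sum_congr rfl fun w _ => ?_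
          rw [Finset.sum_mul]
          exact Finset.sum_congr rfl fun l _ => (Finset.sum_mul _ _ _).symm
      _ = ∑ w, (∑ u, ∑ l, Y j u l w) * ρ (j + 1) w :=
          Finset.sum_congr rfl fun w _ => by rw [hcons j w hj]
      _ = ∑ w, ∑ u, ∑ l, Y j u l w * ρ (j + 1) w := by
          refine Finset.sum_congr rfl fun w _ => ?_
          rw [Finset.sum_mul]
          exact Finset.sum_congr rfl fun l _ => Finset.sum_mul _ _ _
      _ = ∑ u, ∑ w, ∑ l, Y j u l w * ρ (j + 1) w := Finset.sum_comm
      _ = _ := Finset.sum_congr rfl fun u _ => Finset.sum_comm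
  have hmain : ∀ j, j < m → ∑ u, ∑ l, ∑ v, Y j u l v * ρ (j + 1) v ≤
      ∑ i ∈ range (j + 1), ∑ u, ∑ l, ∑ v, Y i u l v * co l := by
    intro j
    induction j with
    | zero =>
      intro h0
      refine (hstep 0 h0).trans ?_
      have h1 : ∑ u, ∑ l, ∑ v, Y 0 u l v * ρ 0 u = 0 := by
        refine Finset.sum_eq_zero fun u _ => Finset.sum_eq_zero fun l _ =>
          Finset.sum_eq_zero fun v _ => ?_
        by_cases h : ok 0 u l v ∧ ((0 : ℕ) = 0 → u = w0)
        · have h2 : ρ 0 u = 0 := by
            rw [hρ, rho, if_pos (h.2 rfl)]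
          rw [h2, mul_zero]
        · rw [hok 0 u l v h0 h, zero_mul]
      rw [h1, zero_add, Finset.sum_range_one]
    | succ j ih =>
      intro hj
      rw [Finset.sum_range_succ]
      refine (hstep (j + 1) hj).trans ?_
      rw [hmove j hj]
      have := ih (by omega)
      linarith
  obtain ⟨m', rfl⟩ : ∃ m', m = m' + 1 := ⟨m - 1, by omega⟩
  have h1 := hmain m' (Nat.lt_succ_self m')
  refine le_trans ?_ h1
  have h2 := htot m' (Nat.lt_succ_self m')
  calc γ = ∑ u, ∑ l, ∑ v, Y m' u l v * γ := by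
        simp only [← Finset.sum_mul]
        rw [h2, one_mul]
    _ ≤ _ := Finset.sum_le_sum fun u _ => Finset.sum_le_sum fun l _ => Finset.sum_le_sum fun v _ =>
        mul_le_mul_of_nonneg_left (hlast v) (hY m' u l v)

end

end Pool.Agent.L5helper35.KH
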