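import Pool.Agent.L5helper35.GE.Pieces
import Pool.Agent.L5helper35.GE.Outer3
import Pool.Agent.L5helper35.MIP.Num

/-!
The gadget, and the pseudo-density for groups of equations.
-/

set_option autoImplicit false

namespace Pool.Agent.L5helper35.KH

open Finset
open Pool.Agent.TH661.LRS (sg chi sum_chi_mul)
open Pool.Agent.L5helper35.MIP
open Pool.Agent.W888.GX (slots img)

theorem ip_comm {b : ℕ} (x y : Fin b → Bool) : ip x y = ip y x := by
  unfold ip
  congr 3
  ext t
  simp [and_comm]

theorem ipg_omega' {b : ℕ} (x : Fin b → Bool) :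
    mean (fun x' : Fin b → Bool =>
      |mean (fun y : (Fin b → Bool) × Bool => sg (ipg x y) * sg (ipg x' y))|) ≤ (1 / 2) ^ b := by
  have h1 : ∀ x' : Fin b → Bool,
      |mean (fun y : (Fin b → Bool) × Bool => sg (ipg x y) * sg (ipg x' y))| =
        if x = x' then 1 else 0 := by
    intro x'
    have h2 : ∀ y : (Fin b → Bool) × Bool, sg (ipg x y) * sg (ipg x' y) =
        chi (sup x) y.1 * chi (sup x') y.1 := by
      intro y
      unfold ipg
      rw [sg_xor, sg_xor, ip_comm x, ip_comm x', sg_ip, sg_ip]
      have := Pool.Agent.TH661.LRS.sg_sq y.2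
      calc chi (sup x) y.1 * sg y.2 * (chi (sup x') y.1 * sg y.2)
          = chi (sup x) y.1 * chi (sup x') y.1 * (sg y.2 * sg y.2) := by ring
        _ = _ := by rw [this, mul_one]
    simp only [h2]
    unfold mean
    rw [Fintype.sum_prod_type]
    simp only [Finset.sum_const, card_univ, Fintype.card_bool, nsmul_eq_mul]
    rw [← Finset.mul_sum, sum_chi_mul, Fintype.card_prod, Fintype.card_fun, Fintype.card_bool]
    by_cases h : x = x'
    · rw [if_pos ((sup_inj _ _).2 h), if_pos h]
      push_cast
      rw [mul_comm, div_self (by positivity), abs_one]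
    · rw [if_neg fun h' => h ((sup_inj _ _).1 h'), if_neg h, mul_zero, zero_div, abs_zero]
  simp only [h1]
  unfold mean
  rw [Finset.sum_ite_eq, if_pos (mem_univ _), Fintype.card_fun, Fintype.card_bool,
    Fintype.card_fin, one_div, one_div, inv_pow]
  push_cast
  exact le_rfl

/-- nonnegative functions of few variables have nonnegative pseudo-means -/
theorem nonneg_local {n d : ℕ} (D : (Fin n → Bool) → ℝ)
    (hpos : ∀ (I : Finset (Fin n)) (ρ : Fin n → Bool), I.card ≤ d →
      0 ≤ mean (fun z => D (I.piecewise ρ z)))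
    (I : Finset (Fin n)) (hI : I.card ≤ d) (h : (Fin n → Bool) → ℝ) (h0 : ∀ z, 0 ≤ h z)
    (hl : ∀ z z', (∀ i ∈ I, z i = z' i) → h z = h z') : 0 ≤ mean fun z => D z * h z := by
  rw [← mean_ov I]
  refine mean_nonneg fun α => ?_
  have h1 : (fun X => D (I.piecewise α X) * h (I.piecewise α X)) =
      fun X => D (I.piecewise α X) * h α := by
    funext X
    congr 1
    refine hl _ _ fun i hi => ?_
    simp [hi]
  rw [h1, mean_mul_right]
  exact mul_nonneg (hpos I α hI) (h0 α)

variable {κ M : ℕ} (c : Fin (M * κ) → Fin 6 → Fin κ) (u : Fin (M * κ) → Bool)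

/-- the `q`-th equation of the group `g` -/
def eqn (q : Fin M) (g : Fin κ) : Fin (M * κ) := finProdFinEquiv (q, g)

/-- all equations of the group hold -/
def GoodZ (g : Fin κ) (z : Fin κ → Bool) : Prop := ∀ q : Fin M, xorRow (c (eqn q g)) z = u (eqn q g)

open Classical in
/-- the number of the pairs of groups which do not hold -/
noncomputable def VN (z : Fin κ → Bool) : ℕ :=
  ∑ i : Fin κ, ∑ j : Fin κ, if i < j then (if GoodZ c u i z ∧ GoodZ c u j z then 0 else 1) else 0

/-- the variables of a group -/
def gvars (g : Fin κ) : Finset (Fin κ) := univ.biUnion fun q : Fin M => univ.image (c (eqn q g))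

theorem card_gvars (g : Fin κ) : (gvars c g).card ≤ 6 * M := by
  unfold gvars
  refine card_biUnion_le.trans ?_
  calc ∑ q : Fin M, (univ.image (c (eqn q g))).card ≤ ∑ _q : Fin M, 6 :=
        Finset.sum_le_sum fun q _ => card_image_le.trans (by simp)
    _ = 6 * M := by simp [mul_comm]

theorem xorRow_local (g : Fin κ) (q : Fin M) (z z' : Fin κ → Bool)
    (h : ∀ i ∈ gvars c g, z i = z' i) : xorRow (c (eqn q g)) z = xorRow (c (eqn q g)) z' := by
  unfold xorRow
  congr 3
  ext s
  have h1 : c (eqn q g) s ∈ gvars c g :=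
    mem_biUnion.2 ⟨q, mem_univ _, mem_image_of_mem _ (mem_univ s)⟩
  simp [h _ h1]

open Classical in
theorem mean_V {d : ℕ} (hd : 12 * M ≤ d) (D : (Fin κ → Bool) → ℝ)
    (hpos : ∀ (I : Finset (Fin κ)) (ρ : Fin κ → Bool), I.card ≤ d →
      0 ≤ mean (fun z => D (I.piecewise ρ z)))
    (hz : ∀ j, mean (fun z => D z * (if xorRow (c j) z ≠ u j then 1 else 0)) = 0) :
    mean (fun z => D z * (VN c u z : ℝ)) = 0 := by
  have key : ∀ i j : Fin κ, mean (fun z => D z *
      (if i < j then (if GoodZ c u i z ∧ GoodZ c u j z then 0 else 1) else 0)) = 0 := by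
    intro i j
    by_cases hij : i < j
    · simp only [if_pos hij]
      set I := gvars c i ∪ gvars c j with hI
      have hcard : I.card ≤ d := by
        have h1 := card_union_le (gvars c i) (gvars c j)
        have h2 := card_gvars c i
        have h3 := card_gvars c j
        rw [hI]
        omega
      have hx : ∀ (g : Fin κ), (g = i ∨ g = j) → ∀ (q : Fin M) (z z' : Fin κ → Bool),
          (∀ a ∈ I, z a = z' a) → xorRow (c (eqn q g)) z = xorRow (c (eqn q g)) z' := by
        intro g hg q z z' h
        refine xorRow_local c g q z z' fun a ha => h a ?_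
        rcases hg with rfl | rfl
        · exact mem_union_left _ ha
        · exact mem_union_right _ ha
      have hgood : ∀ (g : Fin κ), (g = i ∨ g = j) → ∀ (z z' : Fin κ → Bool),
          (∀ a ∈ I, z a = z' a) → (GoodZ c u g z ↔ GoodZ c u g z') := by
        intro g hg z z' h
        unfold GoodZ
        refine forall_congr' fun q => ?_
        rw [hx g hg q z z' h]
      have h1 := nonneg_local D hpos I hcard
        (fun z => if GoodZ c u i z ∧ GoodZ c u j z then (0 : ℝ) else 1)
        (fun z => by split_ifs <;> norm_num)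
        (fun z z' h => by
          rw [hgood i (Or.inl rfl) z z' h, hgood j (Or.inr rfl) z z' h])
      have h2 := nonneg_local D hpos I hcard
        (fun z => (∑ q : Fin M, (if xorRow (c (eqn q i)) z ≠ u (eqn q i) then (1 : ℝ) else 0)) +
          (∑ q : Fin M, (if xorRow (c (eqn q j)) z ≠ u (eqn q j) then (1 : ℝ) else 0)) -
          if GoodZ c u i z ∧ GoodZ c u j z then (0 : ℝ) else 1)
        (fun z => by
          have s1 : ∀ g : Fin κ, 0 ≤ ∑ q : Fin M,
              (if xorRow (c (eqn q g)) z ≠ u (eqn q g) then (1 : ℝ) else 0) := fun g =>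
            Finset.sum_nonneg fun q _ => by split_ifs <;> norm_num
          have s2 : ∀ g : Fin κ, ¬ GoodZ c u g z → 1 ≤ ∑ q : Fin M,
              (if xorRow (c (eqn q g)) z ≠ u (eqn q g) then (1 : ℝ) else 0) := by
            intro g hg
            unfold GoodZ at hg
            push Not at hg
            obtain ⟨q, hq⟩ := hg
            calc (1 : ℝ) = (if xorRow (c (eqn q g)) z ≠ u (eqn q g) then (1 : ℝ) else 0) := by
                  rw [if_pos hq]
              _ ≤ _ := Finset.single_le_sum (f := fun q : Fin M =>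
                  (if xorRow (c (eqn q g)) z ≠ u (eqn q g) then (1 : ℝ) else 0))
                  (fun q _ => by split_ifs <;> norm_num) (mem_univ q)
          have a1 := s1 i
          have a2 := s1 j
          by_cases hc : GoodZ c u i z ∧ GoodZ c u j z
          · rw [if_pos hc]
            linarith
          · rw [if_neg hc]
            rcases not_and_or.1 hc with h | h
            · have := s2 i h
              linarith
            · have := s2 j h
              linarith)
        (fun z z' h => by
          rw [hgood i (Or.inl rfl) z z' h, hgood j (Or.inr rfl) z z' h]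
          congr 2
          · refine Finset.sum_congr rfl fun q _ => ?_
            rw [hx i (Or.inl rfl) q z z' h]
          · refine Finset.sum_congr rfl fun q _ => ?_
            rw [hx j (Or.inr rfl) q z z' h])
      have h3 : mean (fun z => D z *
          ((∑ q : Fin M, (if xorRow (c (eqn q i)) z ≠ u (eqn q i) then (1 : ℝ) else 0)) +
          (∑ q : Fin M, (if xorRow (c (eqn q j)) z ≠ u (eqn q j) then (1 : ℝ) else 0)) -
          if GoodZ c u i z ∧ GoodZ c u j z then (0 : ℝ) else 1)) =
          - mean (fun z => D z * if GoodZ c u i z ∧ GoodZ c u j z then (0 : ℝ) else 1) := by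
        have e1 : ∀ z, D z *
          ((∑ q : Fin M, (if xorRow (c (eqn q i)) z ≠ u (eqn q i) then (1 : ℝ) else 0)) +
          (∑ q : Fin M, (if xorRow (c (eqn q j)) z ≠ u (eqn q j) then (1 : ℝ) else 0)) -
          if GoodZ c u i z ∧ GoodZ c u j z then (0 : ℝ) else 1) =
          ((∑ q : Fin M, D z * (if xorRow (c (eqn q i)) z ≠ u (eqn q i) then (1 : ℝ) else 0)) +
          (∑ q : Fin M, D z * (if xorRow (c (eqn q j)) z ≠ u (eqn q j) then (1 : ℝ) else 0))) -
          D z * (if GoodZ c u i z ∧ GoodZ c u j z then (0 : ℝ) else 1) := by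
          intro z
          rw [← Finset.mul_sum, ← Finset.mul_sum]
          ring
        simp only [e1]
        rw [mean_sub, mean_add, mean_sum, mean_sum, Finset.sum_eq_zero fun q _ => hz _,
          Finset.sum_eq_zero fun q _ => hz _]
        ring
      rw [h3] at h2
      linarith
    · simp only [if_neg hij, mul_zero]
      rw [mean_const]
  have h1 : ∀ z, D z * (VN c u z : ℝ) = ∑ i : Fin κ, ∑ j : Fin κ, D z *
      (if i < j then (if GoodZ c u i z ∧ GoodZ c u j z then (0 : ℝ) else 1) else 0) := by
    intro z
    unfold VN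
    push_cast
    simp only [Finset.mul_sum]
  simp only [h1]
  rw [mean_sum]
  refine Finset.sum_eq_zero fun i _ => ?_
  rw [mean_sum]
  exact Finset.sum_eq_zero fun j _ => key i j

open Classical in
/-- If few groups hold then many pairs do not hold. -/
theorem pairs_bound {κ : ℕ} (P : Fin κ → Prop) (s : ℕ) (hs : (univ.filter P).card ≤ s) :
    κ * κ ≤ 2 * (∑ i : Fin κ, ∑ j : Fin κ, if i < j then (if P i ∧ P j then 0 else 1) else 0) +
      κ + s * s := by
  have h1 : ∀ i j : Fin κ, 1 ≤ (if i < j then (if P i ∧ P j then 0 else 1) else 0) +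
      (if j < i then (if P j ∧ P i then 0 else 1) else 0) + (if i = j then 1 else 0) +
      (if P i then 1 else 0) * (if P j then 1 else 0) := by
    intro i j
    rcases lt_trichotomy i j with h | h | h
    · rw [if_pos h, if_neg (not_lt.2 h.le), if_neg h.ne]
      by_cases h1 : P i <;> by_cases h2 : P j <;> simp [h1, h2]
    · rw [if_pos h]
      omega
    · rw [if_pos h, if_neg (not_lt.2 h.le), if_neg h.ne']
      by_cases h1 : P i <;> by_cases h2 : P j <;> simp [h1, h2]
  have h2 : κ * κ = ∑ _i : Fin κ, ∑ _j : Fin κ, 1 := by simp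
  have h3 : ∑ i : Fin κ, ∑ j : Fin κ, (if j < i then (if P j ∧ P i then 0 else 1) else 0) =
      ∑ i : Fin κ, ∑ j : Fin κ, (if i < j then (if P i ∧ P j then 0 else 1) else 0) :=
    Finset.sum_comm
  have h4 : ∑ i : Fin κ, ∑ j : Fin κ, (if i = j then 1 else 0) = κ := by simp
  have h5 : ∑ i : Fin κ, ∑ j : Fin κ, (if P i then 1 else 0) * (if P j then 1 else 0) =
      (univ.filter P).card * (univ.filter P).card := by
    rw [Finset.card_filter, Finset.sum_mul_sum]
  calc κ * κ = ∑ _i : Fin κ, ∑ _j : Fin κ, 1 := h2
    _ ≤ ∑ i : Fin κ, ∑ j : Fin κ, ((if i < j then (if P i ∧ P j then 0 else 1) else 0) +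
      (if j < i then (if P j ∧ P i then 0 else 1) else 0) + (if i = j then 1 else 0) +
      (if P i then 1 else 0) * (if P j then 1 else 0)) :=
        Finset.sum_le_sum fun i _ => Finset.sum_le_sum fun j _ => h1 i j
    _ = 2 * (∑ i : Fin κ, ∑ j : Fin κ, if i < j then (if P i ∧ P j then 0 else 1) else 0) +
      κ + (univ.filter P).card * (univ.filter P).card := by
        simp only [Finset.sum_add_distrib]
        rw [h3, h4, h5]
        ring
    _ ≤ _ := by
        have := Nat.mul_le_mul hs hs
        omega

open Classical in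
/-- Few groups hold. -/
theorem card_good (δ : ℝ)
    (hu : ∀ z : Fin κ → Bool, (1 / 2 - δ) * (M * κ : ℕ) <
      ((univ.filter fun j => xorRow (c j) z ≠ u j).card : ℝ)) (hM : 0 < M) (z : Fin κ → Bool) :
    ((univ.filter fun g => GoodZ c u g z).card : ℝ) ≤ (1 / 2 + δ) * κ := by
  have h1 : (univ.filter fun j => xorRow (c j) z ≠ u j).card ≤
      M * (univ.filter fun g => ¬ GoodZ c u g z).card := by
    have h2 : (univ.filter fun j => xorRow (c j) z ≠ u j) ⊆
        ((univ : Finset (Fin M)) ×ˢ (univ.filter fun g => ¬ GoodZ c u g z)).image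
          fun p => eqn p.1 p.2 := by
      intro j hj
      rw [mem_filter] at hj
      rw [mem_image]
      have e1 : eqn (finProdFinEquiv.symm j).1 (finProdFinEquiv.symm j).2 = j := by
        unfold eqn
        exact finProdFinEquiv.apply_symm_apply j
      refine ⟨finProdFinEquiv.symm j, ?_, e1⟩
      rw [mem_product, mem_filter]
      refine ⟨mem_univ _, mem_univ _, fun h => hj.2 ?_⟩
      have h3 := h (finProdFinEquiv.symm j).1
      rw [e1] at h3
      exact h3
    refine (card_le_card h2).trans (card_image_le.trans ?_)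
    rw [card_product, card_univ, Fintype.card_fin]
  have h2 := Finset.card_filter_add_card_filter_not (s := (univ : Finset (Fin κ)))
    (fun g => GoodZ c u g z)
  rw [card_univ, Fintype.card_fin] at h2
  have h3 := hu z
  have h4 : ((univ.filter fun j => xorRow (c j) z ≠ u j).card : ℝ) ≤
      M * ((univ.filter fun g => ¬ GoodZ c u g z).card : ℝ) := by exact_mod_cast h1
  have h5 : ((univ.filter fun g => GoodZ c u g z).card : ℝ) +
      ((univ.filter fun g => ¬ GoodZ c u g z).card : ℝ) = κ := by exact_mod_cast h2
  have h6 : (0 : ℝ) < M := by exact_mod_cast hM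
  push_cast at h3
  have h7 : (1 / 2 - δ) * κ < ((univ.filter fun g => ¬ GoodZ c u g z).card : ℝ) := by
    have h8 : (M : ℝ) * ((1 / 2 - δ) * κ) < M * ((univ.filter fun g => ¬ GoodZ c u g z).card : ℝ) := by
      calc (M : ℝ) * ((1 / 2 - δ) * κ) = (1 / 2 - δ) * (M * κ) := by ring
        _ < _ := h3
        _ ≤ _ := h4
    exact lt_of_mul_lt_mul_left h8 h6.le
  linarith

end Pool.Agent.L5helper35.KH
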