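import Pool.Agent.L5helper35.KH.Mach
import Pool.Agent.L5helper35.KH.Loc

/-!
The graphs: the vertices are the possible hidden data of the groups of equations.
-/

set_option autoImplicit false

namespace Pool.Agent.L5helper35.KH

open Finset
open Pool.Agent.L5helper58.KS
open Pool.Agent.L5helper35.MIP (ipg gv xorRow)

/-- the hidden data of a variable -/
abbrev Block (b : ℕ) : Type := (Fin b → Bool) × Bool

/-- the vertices: a group and the hidden data at the places of its equations -/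
abbrev Vx (κ M b : ℕ) : Type := Fin κ × (Fin M × Fin 6 → Block b)

variable {κ M b m : ℕ} (c : Fin (M * κ) → Fin 6 → Fin κ) (u : Fin (M * κ) → Bool)

/-- the hidden data at the places of the group `g` -/
def res (g : Fin κ) (Y : Fin κ → Block b) : Fin M × Fin 6 → Block b :=
  fun p => Y (c (eqn p.1 g) p.2)

/-- consistent vertices of different groups -/
def Cst (p p' : Vx κ M b) : Prop :=
  p.1 ≠ p'.1 ∧ ∃ Y, p.2 = res c p.1 Y ∧ p'.2 = res c p'.1 Y

theorem Cst.symm {p p' : Vx κ M b} (h : Cst c p p') : Cst c p' p := by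
  obtain ⟨h1, Y, h2, h3⟩ := h
  exact ⟨h1.symm, Y, h3, h2⟩

/-- the equations of the vertex hold -/
def GoodA (X : Fin κ → Fin b → Bool) (p : Vx κ M b) : Prop :=
  ∀ q : Fin M, xorRow (id : Fin 6 → Fin 6) (fun t => ipg (X (c (eqn q p.1) t)) (p.2 (q, t))) =
    u (eqn q p.1)

theorem goodA_res (X : Fin κ → Fin b → Bool) (g : Fin κ) (Y : Fin κ → Block b) :
    GoodA c u X (g, res c g Y) ↔ GoodZ c u g (gv ipg X Y) := Iff.rfl

open Classical in
/-- the edges between consistent vertices -/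
noncomputable def yU (e : Vx κ M b ≃ Fin m) (s : Sym2 (Fin m)) : Bool :=
  decide (∃ p p' : Vx κ M b, s = s(e p, e p') ∧ Cst c p p')

open Classical in
/-- the edges between consistent vertices whose equations hold -/
noncomputable def yX (e : Vx κ M b ≃ Fin m) (X : Fin κ → Fin b → Bool) (s : Sym2 (Fin m)) : Bool :=
  decide (∃ p p' : Vx κ M b, s = s(e p, e p') ∧ Cst c p p' ∧ GoodA c u X p ∧ GoodA c u X p')

theorem yU_iff (e : Vx κ M b ≃ Fin m) (p p' : Vx κ M b) :
    yU c e s(e p, e p') = true ↔ Cst c p p' := by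
  unfold yU
  rw [dec_iff]
  constructor
  · rintro ⟨r, r', h, hc⟩
    rw [Sym2.eq_iff] at h
    rcases h with ⟨h1, h2⟩ | ⟨h1, h2⟩
    · rw [e.injective h1, e.injective h2]
      exact hc
    · rw [e.injective h1, e.injective h2]
      exact hc.symm
  · intro h
    exact ⟨p, p', rfl, h⟩

theorem yX_iff (e : Vx κ M b ≃ Fin m) (X : Fin κ → Fin b → Bool) (p p' : Vx κ M b) :
    yX c u e X s(e p, e p') = true ↔ Cst c p p' ∧ GoodA c u X p ∧ GoodA c u X p' := by
  unfold yX
  rw [dec_iff]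
  constructor
  · rintro ⟨r, r', h, hc, hg, hg'⟩
    rw [Sym2.eq_iff] at h
    rcases h with ⟨h1, h2⟩ | ⟨h1, h2⟩
    · rw [e.injective h1, e.injective h2]
      exact ⟨hc, hg, hg'⟩
    · rw [e.injective h1, e.injective h2]
      exact ⟨hc.symm, hg', hg⟩
  · intro h
    exact ⟨p, p', rfl, h⟩

theorem yX_le (e : Vx κ M b ≃ Fin m) (X : Fin κ → Fin b → Bool) (s : Sym2 (Fin m))
    (h : yX c u e X s = true) : yU c e s = true := by
  unfold yX at h
  unfold yU
  rw [dec_iff] at h ⊢
  obtain ⟨p, p', h1, h2, -⟩ := h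
  exact ⟨p, p', h1, h2⟩

/-- the vertices of the hidden data `Y` -/
def vY (e : Vx κ M b ≃ Fin m) (Y : Fin κ → Block b) (g : Fin κ) : Fin m := e (g, res c g Y)

theorem adj_vY (e : Vx κ M b ≃ Fin m) (Y : Fin κ → Block b) (i j : Fin κ) (h : i < j) :
    (gr (yU c e)).Adj (vY c e Y i) (vY c e Y j) := by
  rw [SimpleGraph.fromEdgeSet_adj]
  refine ⟨(yU_iff c e _ _).2 ⟨h.ne, Y, rfl, rfl⟩, fun h' => ?_⟩
  have := e.injective h'
  rw [Prod.ext_iff] at this
  exact h.ne this.1

theorem miss_vY (e : Vx κ M b ≃ Fin m) (X : Fin κ → Fin b → Bool) (Y : Fin κ → Block b) :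
    miss (yX c u e X) (vY c e Y) = VN c u (gv ipg X Y) := by
  unfold miss VN
  refine Finset.sum_congr rfl fun i _ => Finset.sum_congr rfl fun j _ => ?_
  by_cases hij : i < j
  · rw [if_pos hij, if_pos hij]
    have key : yX c u e X s(vY c e Y i, vY c e Y j) = true ↔
        GoodZ c u i (gv ipg X Y) ∧ GoodZ c u j (gv ipg X Y) := by
      unfold vY
      rw [yX_iff, goodA_res, goodA_res]
      exact ⟨fun h => h.2, fun h => ⟨⟨hij.ne, Y, rfl, rfl⟩, h⟩⟩
    by_cases h : GoodZ c u i (gv ipg X Y) ∧ GoodZ c u j (gv ipg X Y)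
    · rw [if_pos h, if_pos (key.2 h)]
    · rw [if_neg h, if_neg (fun h' => h (key.1 h'))]
  · rw [if_neg hij, if_neg hij]

/-- Cliques come from hidden data. -/
theorem clique_data (e : Vx κ M b ≃ Fin m) (hκ : 2 ≤ κ) (v : Fin κ → Fin m)
    (hv : ∀ i j : Fin κ, i < j → (gr (yU c e)).Adj (v i) (v j)) :
    ∃ (g : Fin κ → Fin κ) (Y : Fin κ → Block b), Function.Injective g ∧
      ∀ i, v i = e (g i, res c (g i) Y) := by
  classical
  have hC : ∀ i j : Fin κ, i ≠ j → Cst c (e.symm (v i)) (e.symm (v j)) := by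
    intro i j hij
    have key : ∀ i j : Fin κ, i < j → Cst c (e.symm (v i)) (e.symm (v j)) := by
      intro i j h
      have h1 := hv i j h
      rw [SimpleGraph.fromEdgeSet_adj] at h1
      rw [← yU_iff c e, e.apply_symm_apply, e.apply_symm_apply]
      exact h1.1
    rcases lt_or_gt_of_ne hij with h | h
    · exact key i j h
    · exact (key j i h).symm
  set g : Fin κ → Fin κ := fun i => (e.symm (v i)).1 with hg
  set A : Fin κ → (Fin M × Fin 6 → Block b) := fun i => (e.symm (v i)).2 with hA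
  have hinj : Function.Injective g := by
    intro i j h
    by_contra hne
    exact (hC i j hne).1 h
  have hother : ∀ i : Fin κ, ∃ j : Fin κ, j ≠ i := by
    intro i
    by_cases h0 : i.1 = 0
    · exact ⟨⟨1, by omega⟩, fun h => by rw [← h] at h0; simp at h0⟩
    · exact ⟨⟨0, by omega⟩, fun h => h0 (by rw [← h])⟩
  have hval : ∀ (i i' : Fin κ) (q q' : Fin M) (t t' : Fin 6),
      c (eqn q (g i)) t = c (eqn q' (g i')) t' → A i (q, t) = A i' (q', t') := by
    intro i i' q q' t t' h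
    by_cases hii : i = i'
    · subst hii
      obtain ⟨j, hj⟩ := hother i
      obtain ⟨-, Y, h1, -⟩ := hC i j hj.symm
      have e1 : A i = res c (g i) Y := h1
      rw [e1]
      unfold res
      simp only
      rw [h]
    · obtain ⟨-, Y, h1, h2⟩ := hC i i' hii
      have e1 : A i = res c (g i) Y := h1
      have e2 : A i' = res c (g i') Y := h2
      rw [e1, e2]
      unfold res
      simp only
      rw [h]
  let Y : Fin κ → Block b := fun a =>
    if h : ∃ p : Fin κ × Fin M × Fin 6, c (eqn p.2.1 (g p.1)) p.2.2 = a then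
      A h.choose.1 (h.choose.2.1, h.choose.2.2) else default
  refine ⟨g, Y, hinj, fun i => ?_⟩
  have h1 : A i = res c (g i) Y := by
    funext p
    obtain ⟨q, t⟩ := p
    have hex : ∃ p : Fin κ × Fin M × Fin 6, c (eqn p.2.1 (g p.1)) p.2.2 = c (eqn q (g i)) t :=
      ⟨(i, q, t), rfl⟩
    change _ = Y (c (eqn q (g i)) t)
    simp only [Y]
    rw [dif_pos hex]
    exact hval _ _ _ _ _ _ hex.choose_spec.symm
  rw [← h1]
  exact (e.apply_symm_apply (v i)).symm

/-- In every clique many pairs are not edges for `X`. -/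
theorem clique_miss (e : Vx κ M b ≃ Fin m) (hκ : 2 ≤ κ) (X : Fin κ → Fin b → Bool) (s : ℕ)
    (hs : ∀ z : Fin κ → Bool, ∀ S : Finset (Fin κ), (∀ g ∈ S, GoodZ c u g z) → S.card ≤ s)
    (v : Fin κ → Fin m)
    (hv : ∀ i j : Fin κ, i < j → (gr (yU c e)).Adj (v i) (v j)) :
    κ * κ ≤ 2 * miss (yX c u e X) v + κ + s * s := by
  classical
  obtain ⟨g, Y, hg, hvY⟩ := clique_data c e hκ v hv
  have h1 : miss (yX c u e X) v = ∑ i : Fin κ, ∑ j : Fin κ, if i < j then
      (if GoodZ c u (g i) (gv ipg X Y) ∧ GoodZ c u (g j) (gv ipg X Y) then 0 else 1) else 0 := by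
    unfold miss
    refine Finset.sum_congr rfl fun i _ => Finset.sum_congr rfl fun j _ => ?_
    by_cases hij : i < j
    · rw [if_pos hij, if_pos hij]
      refine if_congr ?_ rfl rfl
      rw [hvY i, hvY j, yX_iff, goodA_res, goodA_res]
      exact ⟨fun h => h.2, fun h => ⟨⟨fun h' => hij.ne (hg h'), Y, rfl, rfl⟩, h⟩⟩
    · rw [if_neg hij, if_neg hij]
  rw [h1]
  have h2 := pairs_bound (fun i : Fin κ => GoodZ c u (g i) (gv ipg X Y)) s (by
    rw [← Finset.card_image_of_injective _ hg]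
    refine hs (gv ipg X Y) _ fun a ha => ?_
    rw [mem_image] at ha
    obtain ⟨i, hi, rfl⟩ := ha
    exact (mem_filter.1 hi).2)
  convert h2 using 6

theorem tab_le {n : ℕ} {iQ : St κ m → Fin n} {iA : Sy κ m → Fin n} (hQ : Function.Injective iQ)
    (hA : Function.Injective iA) (e : Vx κ M b ≃ Fin m) (X : Fin κ → Fin b → Bool) (t : Tab n)
    (h : tabOf iQ iA (yX c u e X) t = true) : tabOf iQ iA (yU c e) t = true := by
  rcases tr_cases h with ⟨i, j, v, w, hij, hvw, hy, rfl⟩ | h
  · rw [tab_chk hQ hA _ hij hvw]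
    exact yX_le c u e X _ hy
  · exact h _

end Pool.Agent.L5helper35.KH
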