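import Pool.Agent.L5helper35.KH.Gr

/-!
The lower bound, up to the choice of the parameters.
-/

set_option autoImplicit false

namespace Pool.Agent.L5helper35.KH

open Finset
open Pool.Agent.L5helper58.KS
open Pool.Agent.L5helper35.MIP
open Pool.Agent.W888.GX (slots img)

theorem VN_le {κ M : ℕ} (c : Fin (M * κ) → Fin 6 → Fin κ) (u : Fin (M * κ) → Bool)
    (z : Fin κ → Bool) : VN c u z ≤ κ * κ := by
  classical
  unfold VN
  calc _ ≤ ∑ _i : Fin κ, ∑ _j : Fin κ, 1 := by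
        refine Finset.sum_le_sum fun i _ => Finset.sum_le_sum fun j _ => ?_
        split_ifs <;> omega
    _ = κ * κ := by simp

theorem card_Vx (κ M b : ℕ) : Fintype.card (Vx κ M b) = κ * (2 ^ b * 2) ^ (M * 6) := by
  simp [Fintype.card_prod, Fintype.card_fun]

theorem gap_third {κ s f k : ℕ} (h1 : κ * κ ≤ 2 * f + κ + s * s) (hs : 100 * s ≤ 51 * κ)
    (hκ : 60 ≤ κ) (hk : k ≤ κ * κ + 4 * κ + 2) : k ≤ 3 * f := by
  have h2 : 10000 * (s * s) ≤ 2601 * (κ * κ) := by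
    have := Nat.mul_le_mul hs hs
    nlinarith
  have h3 : 60 * κ ≤ κ * κ := Nat.mul_le_mul_right κ hκ
  omega

theorem gapHard_of (M K1 κ β N k : ℕ) (E : ℝ) (hM : (3 : ℝ) ≤ 2 * (1 / 100) ^ 2 * M) (hK1 : 1 ≤ K1)
    (c : Fin (M * κ) → Fin 6 → Fin κ)
    (hc : ∀ J : Finset (Fin (M * κ)), 1 ≤ J.card → J.card ≤ 2 * (κ / K1) →
      (6 - 2) * J.card ≤ (img c J).card)
    (hκ : 12 * M ≤ κ / (8 * K1)) (hβ : 8 * κ ≤ 2 ^ β)
    (hk1 : κ * κ + 2 * κ ≤ k + 1) (hk2 : k ≤ κ * κ + 4 * κ + 2)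
    (hN : κ * (κ * (2 ^ (8 * β) * 2) ^ (M * 6)) + 2 * κ + 2 ≤ N)
    (hE : ((κ : ℝ) * κ * 2 ^ κ) * (N : ℝ) ^ (2 * E) ≤ ((2 : ℝ) ^ β) ^ (κ / (8 * K1))) :
    GapHard N k E := by
  classical
  have hM1 : 1 ≤ M := by
    rcases Nat.eq_zero_or_pos M with h | h
    · rw [h] at hM
      norm_num at hM
    · exact h
  have hM15 : 15000 ≤ M := by
    have : (15000 : ℝ) ≤ M := by linarith
    exact_mod_cast this
  have hκ0 : 8 * K1 * (12 * M) ≤ κ := by
    have h1 := Nat.mul_le_mul_left (8 * K1) hκ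
    exact h1.trans (Nat.mul_div_le κ (8 * K1))
  have hκ60 : 60 ≤ κ := by nlinarith
  have hκ1 : 1 ≤ κ := by omega
  -- right sides and the pseudo-density
  obtain ⟨u, hu⟩ := Pool.Agent.L5helper35.GE.exists_rhs (k := 6) M (1 / 100) (by norm_num) hM hκ1 c
  have hrr : 1 ≤ κ / K1 := (Nat.one_le_div_iff hK1).2 (by nlinarith)
  have hd : 8 * (κ / (8 * K1)) ≤ κ / K1 := by
    rw [mul_comm 8 K1, ← Nat.div_div_eq_div_mul]
    exact Nat.mul_div_le _ _
  obtain ⟨D, hB, hD1, hpos, hz, -⟩ := outer (k := 6) (by norm_num) c hc ∅ (fun j => by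
    unfold slots
    simp) hrr hd u (fun _ => false)
  -- the machines
  obtain ⟨m, hm⟩ : ∃ m, m = Fintype.card (Vx κ M (8 * β)) := ⟨_, rfl⟩
  let e : Vx κ M (8 * β) ≃ Fin m := Fintype.equivFinOfCardEq hm.symm
  have hm0 : 0 < m := by
    rw [hm, card_Vx]
    positivity
  have hemb : κ * m + 2 * κ + 2 ≤ N := by
    rw [hm, card_Vx]
    exact hN
  obtain ⟨iQ, iA, hQ, hA, hQ0, hQ1, hA0⟩ := exists_embeddings hemb
  have hN1 : 1 ≤ N := by omega
  have hN0 : (0 : ℝ) < N := by exact_mod_cast hN1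
  let eT := (Fintype.equivFin (Fin κ → (Fin (8 * β) → Bool))).symm
  refine ⟨tabOf iQ iA (yU c e), Fintype.card (Fin κ → (Fin (8 * β) → Bool)),
    fun i => tabOf iQ iA (yX c u e (eT i)), Fintype.card_pos, fun i => ⟨?_, ?_⟩, ?_⟩
  · exact fun t ht => tab_le c u hQ hA e _ t ht
  · intro l hl
    change k ≤ 3 * forbidden (tabOf iQ iA (yX c u e (eT i))) l
    obtain ⟨v, hv, hmiss⟩ := comp_sound hm0 hQ hA hQ0 hQ1 hA0 (yU c e) hl
    have h1 := clique_miss c u e (by omega) (eT i) (51 * κ / 100) (fun z S hS => by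
      have h2 := card_good c u (1 / 100) hu hM1 z
      have h3 : S.card ≤ (univ.filter fun g => GoodZ c u g z).card :=
        card_le_card fun g hg => mem_filter.2 ⟨mem_univ _, hS g hg⟩
      rw [Nat.le_div_iff_mul_le (by norm_num)]
      have h4 : (S.card : ℝ) ≤ ((univ.filter fun g => GoodZ c u g z).card : ℝ) := by
        exact_mod_cast h3
      have h5 : (S.card : ℝ) * 100 ≤ 51 * κ := by linarith
      exact_mod_cast h5) v hv
    have h2 := hmiss (yX c u e (eT i))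
    refine gap_third (κ := κ) (s := 51 * κ / 100) ?_ (Nat.mul_div_le _ _) hκ60 hk2
    omega
  · intro F
    have hex : ∀ Y : Fin κ → Block (8 * β), ∃ h : Comp (tabOf iQ iA (yU c e)) k,
        ∀ y', forbidden (tabOf iQ iA y') h.1 = miss y' (vY c e Y) := fun Y =>
      comp_complete (by omega) hQ hA hQ0 hQ1 hA0 (yU c e) hk1 (vY c e Y) (adj_vY c e Y)
    choose σ hσ using hex
    have hRcard : (Nat.card {i : Fin (Fintype.card (Fin κ → (Fin (8 * β) → Bool))) //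
        F.Certifies (fun h => (forbidden (tabOf iQ iA (yX c u e (eT i))) h.1 : ℝ))
          ((N : ℝ) ^ (-E))} : ℝ) =
        ((univ.filter fun X : Fin κ → (Fin (8 * β) → Bool) =>
          F.Certifies (fun h => (forbidden (tabOf iQ iA (yX c u e X)) h.1 : ℝ))
            ((N : ℝ) ^ (-E))).card : ℝ) := by
      have h1 : Nat.card {i : Fin (Fintype.card (Fin κ → (Fin (8 * β) → Bool))) //
          F.Certifies (fun h => (forbidden (tabOf iQ iA (yX c u e (eT i))) h.1 : ℝ))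
            ((N : ℝ) ^ (-E))} = Nat.card {X : Fin κ → (Fin (8 * β) → Bool) //
          F.Certifies (fun h => (forbidden (tabOf iQ iA (yX c u e X)) h.1 : ℝ))
            ((N : ℝ) ^ (-E))} := Nat.card_congr (eT.subtypeEquiv fun i => Iff.rfl)
      rw [h1, Nat.card_eq_fintype_card, Fintype.card_subtype]
    rw [hRcard]
    have hγ : (0 : ℝ) < (N : ℝ) ^ (-E) := Real.rpow_pos_of_pos hN0 _
    have key := Pool.Agent.L5helper35.GE.formulation_bound (n := κ) (d := κ / (8 * K1))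
      (ipg (b := 8 * β)) ((1 / 2) ^ (8 * β)) ipg_omega' (fun X G => mean_gv X G) ((2 : ℝ) ^ β)
      (2 ^ κ) ((κ : ℝ) * κ) ((N : ℝ) ^ (-E)) (one_le_pow₀ (by norm_num)) (pow_ok κ β hβ) D hB hD1
      hpos (fun z => (VN c u z : ℝ)) (mean_V c u hκ D hpos hz) (by positivity) (fun z => by
        have h1 : (VN c u z : ℝ) ≤ κ * κ := by exact_mod_cast VN_le c u z
        linarith) F σ (fun X h => (forbidden (tabOf iQ iA (yX c u e X)) h.1 : ℝ)) (fun X Y => by
        rw [hσ Y, miss_vY]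
        rfl)
      (univ.filter fun X : Fin κ → (Fin (8 * β) → Bool) =>
          F.Certifies (fun h => (forbidden (tabOf iQ iA (yX c u e X)) h.1 : ℝ))
            ((N : ℝ) ^ (-E))) (fun X hX => (mem_filter.1 hX).2)
    set R : ℝ := ((univ.filter fun X : Fin κ → (Fin (8 * β) → Bool) =>
          F.Certifies (fun h => (forbidden (tabOf iQ iA (yX c u e X)) h.1 : ℝ))
            ((N : ℝ) ^ (-E))).card : ℝ) with hR
    set T : ℝ := (Fintype.card (Fin κ → (Fin (8 * β) → Bool)) : ℝ) with hT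
    have hT0 : 0 < T := by
      rw [hT]
      exact_mod_cast Fintype.card_pos
    have hL0 : (0 : ℝ) < ((2 : ℝ) ^ β) ^ (κ / (8 * K1)) := by positivity
    have hE2 : (N : ℝ) ^ (2 * E) = (N : ℝ) ^ E * (N : ℝ) ^ E := by
      rw [← Real.rpow_add hN0]
      congr 1
      ring
    have hNE : (0 : ℝ) < (N : ℝ) ^ E := Real.rpow_pos_of_pos hN0 _
    have h1 : (κ : ℝ) * κ * (2 ^ κ / ((2 : ℝ) ^ β) ^ (κ / (8 * K1))) ≤
        1 / ((N : ℝ) ^ E * (N : ℝ) ^ E) := by
      rw [← mul_div_assoc, div_le_div_iff₀ hL0 (by positivity), one_mul, ← hE2]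
      exact hE
    have hS : (0 : ℝ) ≤ F.size := Nat.cast_nonneg _
    have h2 := key.trans (mul_le_mul_of_nonneg_left h1 hS)
    rw [Real.rpow_neg hN0.le, div_mul_eq_mul_div, div_le_iff₀ hT0] at h2
    have h3 : R * ((N : ℝ) ^ E)⁻¹ * (N : ℝ) ^ E ≤
        F.size * (1 / ((N : ℝ) ^ E * (N : ℝ) ^ E)) * T * (N : ℝ) ^ E :=
      mul_le_mul_of_nonneg_right h2 hNE.le
    rw [inv_mul_cancel_right₀ hNE.ne'] at h3
    refine h3.trans (le_of_eq ?_)
    field_simp

end Pool.Agent.L5helper35.KH
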