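import Pool.Agent.L5helper35.KH.Run
import Pool.Agent.L5helper35.KH.Defs
import Pool.Agent.L5helper58.KS.Emb

/-!
The computations of the machines given by tables.
-/

set_option autoImplicit false

namespace Pool.Agent.L5helper35.KH

open Pool.Agent.L5helper58.KS

section

variable {n : ℕ}

theorem leads_append {l l' : List (Tab n)} {a b c : Config} (h : Leads l a b)
    (h' : Leads l' b c) : Leads (l ++ l') a c := by
  induction l generalizing a with
  | nil =>
    have : a = b := h
    subst this
    exact h'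
  | cons e l ih => exact ⟨h.1, ih h.2⟩

/-- a halting computation gives `Halts` -/
theorem halts_of_isHalting {x : Tab n → Bool} {l : List (Tab n)} (h : IsHalting x l) :
    Halts (machineOf x) l.length := by
  obtain ⟨hx, c, hc, hs⟩ := h
  have key : ∀ (l : List (Tab n)) (a b : Config), (∀ e ∈ l, x e = true) → Leads l a b →
      ∃ f : ℕ → Config, f 0 = a ∧ (∀ i < l.length, Step (machineOf x) (f i) (f (i + 1))) ∧
        f l.length = b := by
    intro l
    induction l with
    | nil =>
      intro a b _ h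
      exact ⟨fun _ => a, rfl, fun i hi => absurd hi (Nat.not_lt_zero i), h⟩
    | cons e l ih =>
      intro a b he h
      obtain ⟨f, h0, h1, h2⟩ := ih (after e a) b (fun e' h' => he e' (List.mem_cons_of_mem _ h')) h.2
      refine ⟨fun i => Nat.casesOn i a f, rfl, ?_, h2⟩
      intro i hi
      cases i with
      | zero =>
        change Step (machineOf x) a (f 0)
        rw [h0]
        refine ⟨e.1.val, e.2.1.val, e.2.2.1.val, e.2.2.2.1.val, e.2.2.2.2, ?_, h.1.1, h.1.2, rfl⟩
        rw [mem_machineOf]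
        exact ⟨e, he e (by simp), rfl⟩
      | succ i => exact h1 i (by simpa using hi)
  obtain ⟨f, h0, h1, h2⟩ := key l _ _ hx hc
  refine ⟨l.length, le_rfl, f, h0, h1, ?_⟩
  rw [h2, hs]
  exact List.mem_singleton.mpr rfl

end

section

variable {κ m n : ℕ} (iQ : St κ m → Fin n) (iA : Sy κ m → Fin n)

/-- the place of a transition in the table -/
def enc (t : TT κ m) : Tab n := (iQ t.1, iA t.2.1, iQ t.2.2.1, iA t.2.2.2.1, t.2.2.2.2)

variable {iQ iA}

theorem leads_of_lrun {G : SimpleGraph (Fin m)} {l : List (TT κ m)} {a b : Cf (St κ m) (Sy κ m)}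
    (h : LRun G l a b) : Leads (l.map (enc iQ iA)) (im iQ iA a) (im iQ iA b) := by
  induction h with
  | nil => rfl
  | @snoc l a b _ q' a' d ht ih =>
    rw [List.map_append]
    refine leads_append ih ⟨⟨rfl, rfl⟩, ?_⟩
    change after _ _ = _
    unfold after im enc
    simp only
    congr 1
    funext x
    by_cases hx : x = b.hd
    · rw [hx, Function.update_self, Function.update_self]
    · rw [Function.update_of_ne hx, Function.update_of_ne hx]

theorem tr_of_lrun {G : SimpleGraph (Fin m)} {l : List (TT κ m)} {a b : Cf (St κ m) (Sy κ m)}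
    (h : LRun G l a b) : ∀ t ∈ l, Tr G t.1 t.2.1 t.2.2.1 t.2.2.2.1 t.2.2.2.2 := by
  induction h with
  | nil => exact fun t ht => absurd ht (by simp)
  | snoc _ q' a' d ht ih =>
    intro t h'
    rw [List.mem_append, List.mem_singleton] at h'
    rcases h' with h' | rfl
    · exact ih t h'
    · exact ht

theorem dec_iff {p : Prop} {inst : Decidable p} : (@decide p inst = true) ↔ p :=
  @decide_eq_true_iff p inst

theorem tab_iff (y : Sym2 (Fin m) → Bool) (e : Tab n) : tabOf iQ iA y e = true ↔
    ∃ q a q' a', Tr (gr y) q a q' a' e.2.2.2.2 ∧ iQ q = e.1 ∧ iA a = e.2.1 ∧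
    iQ q' = e.2.2.1 ∧ iA a' = e.2.2.2.1 := by
  unfold tabOf
  exact dec_iff

theorem tab_of_tr {y : Sym2 (Fin m) → Bool} {t : TT κ m}
    (h : Tr (gr y) t.1 t.2.1 t.2.2.1 t.2.2.2.1 t.2.2.2.2) :
    tabOf iQ iA y (enc iQ iA t) = true := by
  rw [tab_iff]
  exact ⟨_, _, _, _, h, rfl, rfl, rfl, rfl⟩

/-- the check transition for the vertices `v`, `w` at the positions `i`, `j` -/
def ckt (i j : Fin κ) (v w : Fin m) : TT κ m :=
  (.sw i v, some (j, w), .sw i v, some (j, w), some true)

theorem tab_chk (hQ : Function.Injective iQ) (hA : Function.Injective iA)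
    (y : Sym2 (Fin m) → Bool) {i j : Fin κ} {v w : Fin m} (hij : i < j) (hvw : v ≠ w) :
    tabOf iQ iA y (enc iQ iA (ckt i j v w)) = y s(v, w) := by
  rw [Bool.eq_iff_iff]
  constructor
  · intro h
    rw [tab_iff] at h
    obtain ⟨q, a, q', a', htr, e1, e2, e3, e4⟩ := h
    obtain rfl := hQ e1
    obtain rfl := hA e2
    generalize hd : (enc iQ iA (ckt i j v w)).2.2.2.2 = d at htr
    change Tr _ (.sw i v) (some (j, w)) _ _ _ at htr
    cases htr with
    | check _ _ _ _ h hG =>
      rw [SimpleGraph.fromEdgeSet_adj] at hG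
      exact hG.1
  · intro h
    refine tab_of_tr ?_
    refine Tr.check i j v w hij ?_
    rw [SimpleGraph.fromEdgeSet_adj]
    exact ⟨h, hvw⟩

/-- an entry of the table of a check is a check transition of the right graph -/
theorem tr_cases {y : Sym2 (Fin m) → Bool} {e : Tab n} (h : tabOf iQ iA y e = true) :
    (∃ (i j : Fin κ) (v w : Fin m), i < j ∧ v ≠ w ∧ y s(v, w) = true ∧
      e = enc iQ iA (ckt i j v w)) ∨ ∀ y', tabOf iQ iA y' e = true := by
  rw [tab_iff] at h
  obtain ⟨q, a, q', a', htr, e1, e2, e3, e4⟩ := h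
  by_cases hn : ∀ (i j : Fin κ) (v w : Fin m), ¬ (q = .sw i v ∧ a = some (j, w))
  · right
    intro y'
    rw [tab_iff]
    exact ⟨q, a, q', a', tr_mono_of_not_check htr hn, e1, e2, e3, e4⟩
  · left
    push Not at hn
    obtain ⟨i, j, v, w, rfl, rfl⟩ := hn
    obtain ⟨f1, f2, f3, f4, f5⟩ := e
    simp only at e1 e2 e3 e4 htr
    cases htr with
    | check _ _ _ _ h hG =>
      rw [SimpleGraph.fromEdgeSet_adj] at hG
      refine ⟨i, j, v, w, h, hG.2, hG.1, ?_⟩
      subst e1 e2 e3 e4
      rfl

/-- the number of the pairs which are not edges -/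
def miss (y : Sym2 (Fin m) → Bool) (v : Fin κ → Fin m) : ℕ :=
  ∑ i : Fin κ, ∑ j : Fin κ, if i < j then (if y s(v i, v j) = true then 0 else 1) else 0

/-- For every clique there is a computation. -/
theorem comp_complete (hκ : 2 ≤ κ) (hQ : Function.Injective iQ)
    (hA : Function.Injective iA) (hQ0 : (iQ (.g 0)).val = 0) (hQ1 : (iQ .halt).val = 1)
    (hA0 : (iA none).val = 0) (y : Sym2 (Fin m) → Bool) {k : ℕ}
    (hk : κ * κ + 2 * κ ≤ k + 1) (v : Fin κ → Fin m)
    (hv : ∀ a b : Fin κ, a < b → (gr y).Adj (v a) (v b)) :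
    ∃ h : Comp (tabOf iQ iA y) k, ∀ y', forbidden (tabOf iQ iA y') h.1 = miss y' v := by
  classical
  obtain ⟨N, hN, c, ⟨l, hl, hrun, hsum⟩, hc⟩ := c_complete (G := gr y) v hκ hv
  have h0 : im iQ iA (cf0 κ m) = ⟨0, 0, fun _ => 0⟩ := by
    unfold im cf0
    simp only
    rw [hQ0, hA0]
  have hlead := leads_of_lrun (iQ := iQ) (iA := iA) hrun
  rw [h0] at hlead
  refine ⟨⟨l.map (enc iQ iA), ?_, ?_, _, hlead, ?_⟩, ?_⟩
  · rw [List.length_map, hl]
    omega
  · intro e he
    rw [List.mem_map] at he
    obtain ⟨t, ht, rfl⟩ := he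
    exact tab_of_tr (tr_of_lrun hrun t ht)
  · change (iQ c.st).val = 1
    rw [hc, hQ1]
  · intro y'
    change (l.map (enc iQ iA)).countP (fun e => !tabOf iQ iA y' e) = _
    rw [List.countP_map]
    let f : TT κ m → ℕ := fun t => if Tr (gr y) t.1 t.2.1 t.2.2.1 t.2.2.2.1 t.2.2.2.2 ∧
      ¬ tabOf iQ iA y' (enc iQ iA t) = true then 1 else 0
    have h1 : ∀ l' : List (TT κ m), (∀ t ∈ l', Tr (gr y) t.1 t.2.1 t.2.2.1 t.2.2.2.1 t.2.2.2.2) →
        l'.countP ((fun e => !tabOf iQ iA y' e) ∘ enc iQ iA) = (l'.map f).sum := by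
      intro l'
      induction l' with
      | nil => intro _; rfl
      | cons t l' ih =>
        intro ht
        rw [List.countP_cons, ih (fun t' h' => ht t' (List.mem_cons_of_mem _ h')), List.map_cons,
          List.sum_cons, add_comm]
        congr 1
        simp only [f, Function.comp]
        have h2 := ht t (by simp)
        by_cases h3 : tabOf iQ iA y' (enc iQ iA t) = true
        · simp [h3]
        · simp [h2, h3]
    rw [h1 l (tr_of_lrun hrun), hsum f]
    · unfold miss
      refine Finset.sum_congr rfl fun i _ => Finset.sum_congr rfl fun j _ => ?_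
      by_cases hij : i < j
      · rw [if_pos hij, if_pos hij]
        have h4 := hv i j hij
        have h5 : chk v i j = ckt i j (v i) (v j) := rfl
        simp only [f]
        rw [h5, tab_chk hQ hA y' hij h4.ne]
        have h6 : Tr (gr y) (ckt i j (v i) (v j)).1 (ckt i j (v i) (v j)).2.1
            (ckt i j (v i) (v j)).2.2.1 (ckt i j (v i) (v j)).2.2.2.1
            (ckt i j (v i) (v j)).2.2.2.2 := Tr.check i j _ _ hij h4
        by_cases h7 : y' s(v i, v j) = true
        · rw [if_pos h7, if_neg (fun h => h.2 h7)]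
        · rw [if_neg h7, if_pos ⟨h6, h7⟩]
      · rw [if_neg hij, if_neg hij]
    · intro t ht
      simp only [f]
      rw [if_neg]
      rintro ⟨h2, h3⟩
      exact h3 (tab_of_tr (tr_mono_of_not_check h2 ht))

/-- Every halting computation contains the checks of a clique. -/
theorem comp_sound (hm : 0 < m) (hQ : Function.Injective iQ)
    (hA : Function.Injective iA) (hQ0 : (iQ (.g 0)).val = 0) (hQ1 : (iQ .halt).val = 1)
    (hA0 : (iA none).val = 0) (y : Sym2 (Fin m) → Bool) {l : List (Tab n)}
    (hl : IsHalting (tabOf iQ iA y) l) :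
    ∃ v : Fin κ → Fin m, (∀ a b : Fin κ, a < b → (gr y).Adj (v a) (v b)) ∧
      ∀ y', miss y' v ≤ forbidden (tabOf iQ iA y') l := by
  classical
  let y1 : Sym2 (Fin m) → Bool := fun s => decide (∃ (i j : Fin κ) (v w : Fin m), i < j ∧ v ≠ w ∧
    s = s(v, w) ∧ y s = true ∧ enc iQ iA (ckt i j v w) ∈ l)
  have h1 : IsHalting (tabOf iQ iA y1) l := by
    refine ⟨fun e he => ?_, hl.2⟩
    rcases tr_cases (hl.1 e he) with ⟨i, j, v, w, hij, hvw, hy, rfl⟩ | h
    · rw [tab_chk hQ hA y1 hij hvw]
      simp only [y1]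
      rw [decide_eq_true_iff]
      exact ⟨i, j, v, w, hij, hvw, rfl, hy, he⟩
    · exact h y1
  have h2 := halts_of_isHalting h1
  rw [halts_im hQ hA hQ0 hQ1 hA0] at h2
  obtain ⟨N, -, c, hrun, hc⟩ := h2
  obtain ⟨v, hv⟩ := run_sound hm hrun hc
  have hy1 : ∀ a b : Fin κ, a < b → ∃ (i j : Fin κ) (v' w' : Fin m), i < j ∧ v' ≠ w' ∧
      s(v a, v b) = s(v', w') ∧ y s(v a, v b) = true ∧ enc iQ iA (ckt i j v' w') ∈ l := by
    intro a b hab
    have h3 := hv a b hab
    rw [SimpleGraph.fromEdgeSet_adj] at h3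
    have h4 : y1 s(v a, v b) = true := h3.1
    simp only [y1] at h4
    rw [decide_eq_true_iff] at h4
    exact h4
  have hne : ∀ a b : Fin κ, a ≠ b → v a ≠ v b := by
    intro a b hab
    rcases lt_or_gt_of_ne hab with h | h
    · exact (hv a b h).ne
    · exact (hv b a h).ne'
  refine ⟨v, fun a b hab => ?_, fun y' => ?_⟩
  · obtain ⟨-, -, -, -, -, -, -, h5, -⟩ := hy1 a b hab
    rw [SimpleGraph.fromEdgeSet_adj]
    exact ⟨h5, (hv a b hab).ne⟩
  · have : Nonempty (Fin m) := ⟨⟨0, hm⟩⟩
    choose! pi pj pv pw p1 p2 p3 p4 p5 using hy1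
    let S : Finset (Fin κ × Fin κ) := Finset.univ.filter fun p => p.1 < p.2 ∧ ¬ y' s(v p.1, v p.2) = true
    have hmiss : miss y' v = S.card := by
      unfold miss
      rw [Finset.card_filter, Fintype.sum_prod_type]
      refine Finset.sum_congr rfl fun i _ => Finset.sum_congr rfl fun j _ => ?_
      by_cases hij : i < j
      · rw [if_pos hij]
        by_cases h7 : y' s(v i, v j) = true
        · rw [if_pos h7, if_neg (fun h => h.2 h7)]
        · rw [if_neg h7, if_pos ⟨hij, h7⟩]
      · rw [if_neg hij, if_neg (fun h => hij h.1)]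
    rw [hmiss]
    have h6 : S.card ≤ (l.filter fun e => !tabOf iQ iA y' e).toFinset.card := by
      refine Finset.card_le_card_of_injOn
        (fun p => enc iQ iA (ckt (pi p.1 p.2) (pj p.1 p.2) (pv p.1 p.2) (pw p.1 p.2))) ?_ ?_
      · intro p hp
        rw [Finset.mem_coe, Finset.mem_filter] at hp
        obtain ⟨-, hp1, hp2⟩ := hp
        rw [Finset.mem_coe, List.mem_toFinset, List.mem_filter]
        refine ⟨p5 _ _ hp1, ?_⟩
        rw [tab_chk hQ hA y' (p1 _ _ hp1) (p2 _ _ hp1), ← p3 _ _ hp1]
        simpa using hp2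
      · intro p hp q hq hpq
        rw [Finset.mem_coe, Finset.mem_filter] at hp hq
        obtain ⟨-, hp1, hp2⟩ := hp
        obtain ⟨-, hq1, hq2⟩ := hq
        have e1 := congrArg Prod.fst hpq
        have e2 := congrArg (fun t => t.2.1) hpq
        have e3 := hQ e1
        have e4 := hA e2
        have e5 : pv p.1 p.2 = pv q.1 q.2 := by
          have := e3
          simp only [ckt, St.sw.injEq] at this
          exact this.2
        have e6 : pw p.1 p.2 = pw q.1 q.2 := by
          have := e4
          simp only [ckt, Option.some.injEq, Prod.mk.injEq] at this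
          exact this.2
        have e7 : s(v p.1, v p.2) = s(v q.1, v q.2) := by
          rw [p3 _ _ hp1, p3 _ _ hq1, e5, e6]
        rw [Sym2.eq_iff] at e7
        have hinj : Function.Injective v := by
          intro a b hab
          by_contra h
          exact hne a b h hab
        rcases e7 with ⟨h7, h8⟩ | ⟨h7, h8⟩
        · exact Prod.ext (hinj h7) (hinj h8)
        · have h9 := hinj h7
          have h10 := hinj h8
          rw [h9, h10] at hp1
          exact absurd hp1 (not_lt.2 hq1.le)
    refine h6.trans ((List.toFinset_card_le _).trans (le_of_eq ?_))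
    rw [← List.countP_eq_length_filter]
    rfl

end

end Pool.Agent.L5helper35.KH
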