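import Pool.Agent.L5helper35.KH.Low

/-!
The choice of the parameters.
-/

set_option autoImplicit false

namespace Pool.Agent.L5helper35.KH

open Finset
open Pool.Agent.W888.GX (slots img)

theorem pow2_sq (n : ℕ) (h : 4 ≤ n) : n * n ≤ 2 ^ n := by
  induction n, h using Nat.le_induction with
  | base => norm_num
  | succ n hn ih =>
    rw [pow_succ]
    nlinarith

theorem params (M K1 : ℕ) (hM : 1 ≤ M) (hK1 : 1 ≤ K1) (k N κ L β : ℕ)
    (hk : 12800 * (M * K1) ^ 2 ≤ k) (hN : k ^ (12800 * (M * K1) ^ 2) ≤ N)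
    (hκ : κ = Nat.sqrt (k + 2) - 1) (hL : L = Nat.log 2 N) (hβ : β = L / (100 * M)) :
    12 * M ≤ κ / (8 * K1) ∧ 8 * κ ≤ 2 ^ β ∧ κ * κ + 2 * κ ≤ k + 1 ∧ k ≤ κ * κ + 4 * κ + 2 ∧
      κ * (κ * (2 ^ (8 * β) * 2) ^ (M * 6)) + 2 * κ + 2 ≤ N ∧
      12800 * (M * K1) ≤ L ∧ L ≤ 200 * M * β ∧ κ ≤ 16 * K1 * (κ / (8 * K1)) ∧ 4 ≤ κ ∧
      N < 2 ^ (L + 1) ∧ k ≤ 4 * (κ * κ) := by
  obtain ⟨P, hP⟩ : ∃ P, P = M * K1 := ⟨_, rfl⟩
  have hP1 : 1 ≤ P := by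
    rw [hP]
    exact Nat.one_le_iff_ne_zero.2 (by positivity)
  have hMP : M ≤ P := by
    rw [hP]
    exact Nat.le_mul_of_pos_right M hK1
  have hKP : K1 ≤ P := by
    rw [hP]
    exact Nat.le_mul_of_pos_left K1 hM
  rw [← hP] at hk hN
  have hPP : P ≤ P ^ 2 := Nat.le_self_pow (by norm_num) P
  have hk0 : k ≠ 0 := by
    have : 0 < 12800 * P ^ 2 := by positivity
    omega
  have hN0 : N ≠ 0 := by
    have : 0 < k ^ (12800 * P ^ 2) := by positivity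
    omega
  have hNL : N < 2 ^ (L + 1) := by
    rw [hL]
    exact Nat.lt_pow_succ_log_self (by norm_num) N
  have hNL' : 2 ^ L ≤ N := by
    rw [hL]
    exact Nat.pow_log_le_self 2 hN0
  -- the logarithm of `k`
  obtain ⟨lk, hlk⟩ : ∃ lk, lk = Nat.log 2 k := ⟨_, rfl⟩
  have hk1 : k < 2 ^ (lk + 1) := by
    rw [hlk]
    exact Nat.lt_pow_succ_log_self (by norm_num) k
  have hk2 : 2 ^ lk ≤ k := by
    rw [hlk]
    exact Nat.pow_log_le_self 2 hk0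
  have hlk1 : 1 ≤ lk := by
    rw [hlk]
    refine Nat.log_pos (by norm_num) ?_
    have : 12800 * 1 ≤ 12800 * P ^ 2 := Nat.mul_le_mul_left _ (by omega)
    omega
  have hlkL : lk * (12800 * P ^ 2) ≤ L := by
    have h1 : 2 ^ (lk * (12800 * P ^ 2)) < 2 ^ (L + 1) := by
      calc 2 ^ (lk * (12800 * P ^ 2)) = (2 ^ lk) ^ (12800 * P ^ 2) := by rw [pow_mul]
        _ ≤ k ^ (12800 * P ^ 2) := Nat.pow_le_pow_left hk2 _
        _ ≤ N := hN
        _ < _ := hNL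
    have h2 := (Nat.pow_lt_pow_iff_right (by norm_num : 1 < 2)).1 h1
    omega
  -- `κ`
  have hs1 := Nat.sqrt_le (k + 2)
  have hs2 := Nat.lt_succ_sqrt (k + 2)
  have hs3 : 96 * P + 1 ≤ Nat.sqrt (k + 2) := by
    rw [Nat.le_sqrt]
    have h1 : (96 * P + 1) * (96 * P + 1) ≤ 12800 * P ^ 2 := by nlinarith
    omega
  obtain ⟨s, hs⟩ : ∃ s, s = Nat.sqrt (k + 2) := ⟨_, rfl⟩
  rw [← hs] at hs1 hs2 hs3 hκ
  have hsκ : s = κ + 1 := by omega
  rw [hsκ] at hs1 hs2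
  rw [Nat.succ_eq_add_one] at hs2
  have e1 : (κ + 1) * (κ + 1) = κ * κ + 2 * κ + 1 := by ring
  have e2 : (κ + 1 + 1) * (κ + 1 + 1) = κ * κ + 4 * κ + 4 := by ring
  rw [e1] at hs1
  rw [e2] at hs2
  have hκP : 96 * P ≤ κ := by omega
  have hκk : κ ≤ k := by nlinarith
  -- `L` and `β`
  have hL1 : 12800 * P ≤ L := by nlinarith
  have hM100 : 0 < 100 * M := by omega
  have hβ1 : 100 * M * β ≤ L := by
    rw [hβ]
    exact Nat.mul_div_le L (100 * M)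
  have hβ2 : L ≤ 200 * M * β := by
    have h1 : L < 100 * M * (β + 1) := by
      rw [hβ]
      exact Nat.lt_mul_div_succ L hM100
    have h2 : 1 ≤ β := by
      rw [hβ, Nat.one_le_div_iff hM100]
      omega
    nlinarith
  have hβ3 : lk + 4 ≤ β := by
    rw [hβ, Nat.le_div_iff_mul_le hM100]
    nlinarith
  refine ⟨?_, ?_, by omega, by omega, ?_, hP ▸ hL1, hβ2, ?_, by omega, hNL, by nlinarith⟩
  · rw [Nat.le_div_iff_mul_le (by omega)]
    calc 12 * M * (8 * K1) = 96 * (M * K1) := by ring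
      _ = 96 * P := by rw [hP]
      _ ≤ κ := hκP
  · calc 8 * κ ≤ 8 * 2 ^ (lk + 1) := Nat.mul_le_mul_left 8 (by omega)
      _ = 2 ^ (lk + 4) := by ring
      _ ≤ 2 ^ β := Nat.pow_le_pow_right (by norm_num) hβ3
  · have h1 : κ * (κ * (2 ^ (8 * β) * 2) ^ (M * 6)) ≤ 2 ^ (2 * (lk + 1) + (8 * β + 1) * (M * 6)) := by
      calc κ * (κ * (2 ^ (8 * β) * 2) ^ (M * 6))
          ≤ 2 ^ (lk + 1) * (2 ^ (lk + 1) * (2 ^ (8 * β) * 2) ^ (M * 6)) :=
            Nat.mul_le_mul (by omega) (Nat.mul_le_mul_right _ (by omega))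
        _ = _ := by
            rw [← pow_succ, ← pow_mul, ← pow_add, ← pow_add]
            congr 1
            ring
    have h2 : 2 * κ + 2 ≤ 2 ^ (lk + 3) := by
      have : 2 ^ (lk + 3) = 4 * 2 ^ (lk + 1) := by ring
      omega
    have h3 : 2 ^ (lk + 3) ≤ 2 ^ (2 * (lk + 1) + (8 * β + 1) * (M * 6)) := by
      refine Nat.pow_le_pow_right (by norm_num) ?_
      have : 1 ≤ (8 * β + 1) * (M * 6) := Nat.one_le_iff_ne_zero.2 (by positivity)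
      omega
    have h4 : 2 ^ (2 * (lk + 1) + (8 * β + 1) * (M * 6) + 1) ≤ 2 ^ L := by
      refine Nat.pow_le_pow_right (by norm_num) ?_
      have h5 : (8 * β + 1) * (M * 6) = 48 * (M * β) + 6 * M := by ring
      rw [h5]
      have h6 : 100 * (M * β) ≤ L := by
        rw [← mul_assoc]
        exact hβ1
      have h7 : lk * 12800 ≤ L := by nlinarith
      omega
    rw [pow_succ] at h4
    omega
  · have h1 : κ < 8 * K1 * (κ / (8 * K1) + 1) := Nat.lt_mul_div_succ κ (by omega)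
    have h2 : 1 ≤ κ / (8 * K1) := by
      rw [Nat.one_le_div_iff (by omega)]
      omega
    nlinarith

theorem low_main : ∃ (c : ℝ) (C : ℕ), 0 < c ∧ ∀ k n : ℕ, C ≤ k → k ^ C ≤ n →
    GapHard n k (c * √k) := by
  obtain ⟨M, hM⟩ : ∃ M : ℕ, M = 15000 := ⟨_, rfl⟩
  obtain ⟨K1, hK1⟩ : ∃ K1 : ℕ, K1 = 8 * 3 ^ (6 + 1) * 6 ^ 2 * M := ⟨_, rfl⟩
  have hM1 : 1 ≤ M := by omega
  have hK : 1 ≤ K1 := by
    rw [hK1]
    exact Nat.one_le_iff_ne_zero.2 (by positivity)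
  have hMr : (3 : ℝ) ≤ 2 * (1 / 100) ^ 2 * M := by
    rw [hM]
    norm_num
  refine ⟨1 / (51200 * (M * K1)), 12800 * (M * K1) ^ 2, by positivity, fun k N hk hN => ?_⟩
  obtain ⟨κ, hκ⟩ : ∃ κ, κ = Nat.sqrt (k + 2) - 1 := ⟨_, rfl⟩
  obtain ⟨L, hL⟩ : ∃ L, L = Nat.log 2 N := ⟨_, rfl⟩
  obtain ⟨β, hβ⟩ : ∃ β, β = L / (100 * M) := ⟨_, rfl⟩
  obtain ⟨p1, p2, p3, p4, p5, p6, p7, p8, p9, p10, p11⟩ := params M K1 hM1 hK k N κ L β hk hN hκ hL hβ
  have hκ1 : 1 ≤ κ := by omega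
  -- the hypergraph
  have hq : K1 * (κ / K1) ≤ κ := Nat.mul_div_le _ _
  obtain ⟨c, hc, -⟩ := Pool.Agent.W888.GX.exists_hyp 6 (M * κ) κ (2 * (κ / K1)) 0 0 0 (by norm_num)
    hκ1 (Nat.le_mul_of_pos_left κ hM1) (by
      have e1 : (6 - 2) * 2 ≤ K1 := by rw [hK1, hM]; norm_num
      calc (6 - 2) * (2 * (κ / K1)) = (6 - 2) * 2 * (κ / K1) := by ring
        _ ≤ K1 * (κ / K1) := Nat.mul_le_mul_right _ e1
        _ ≤ κ := hq) (by
      have e1 : 4 * 3 ^ (6 + 1) * 6 ^ 2 * (M * κ) * (2 * (κ / K1)) ≤ κ ^ 2 := by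
        calc 4 * 3 ^ (6 + 1) * 6 ^ 2 * (M * κ) * (2 * (κ / K1)) = K1 * (κ / K1) * κ := by
              rw [hK1]; ring
          _ ≤ κ * κ := Nat.mul_le_mul_right _ hq
          _ = κ ^ 2 := by ring
      exact_mod_cast e1) (by norm_num)
  refine gapHard_of M K1 κ β N k _ hMr hK c hc p1 p2 p3 p4 p5 ?_
  -- the estimate
  have hN0 : (0 : ℝ) ≤ N := Nat.cast_nonneg N
  have hE0 : 0 ≤ 2 * (1 / (51200 * ((M : ℝ) * K1)) * √k) := by positivity
  have hκr : (4 : ℝ) ≤ κ := by exact_mod_cast p9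
  have hMK : (1 : ℝ) ≤ (M : ℝ) * K1 := by
    have : 1 ≤ M * K1 := Nat.one_le_iff_ne_zero.2 (by positivity)
    exact_mod_cast this
  have h1 : (κ : ℝ) * κ * 2 ^ κ ≤ 2 ^ ((2 : ℝ) * κ) := by
    have e1 : ((κ * κ : ℕ) : ℝ) ≤ ((2 ^ κ : ℕ) : ℝ) := by exact_mod_cast pow2_sq κ p9
    push_cast at e1
    calc (κ : ℝ) * κ * 2 ^ κ ≤ 2 ^ κ * 2 ^ κ := mul_le_mul_of_nonneg_right e1 (by positivity)
      _ = 2 ^ ((2 : ℝ) * κ) := by
        rw [← pow_add, ← Real.rpow_natCast]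
        congr 1
        push_cast
        ring
  have hsq : √(k : ℝ) ≤ 2 * κ := by
    rw [Real.sqrt_le_left (by positivity)]
    have e1 : ((k : ℕ) : ℝ) ≤ ((4 * (κ * κ) : ℕ) : ℝ) := by exact_mod_cast p11
    push_cast at e1
    nlinarith
  have hLr : 12800 * ((M : ℝ) * K1) ≤ L := by exact_mod_cast p6
  have hL1 : (1 : ℝ) ≤ L := by nlinarith
  have h2 : (N : ℝ) ^ (2 * (1 / (51200 * ((M : ℝ) * K1)) * √k)) ≤
      2 ^ (((L : ℝ) * κ) / (6400 * ((M : ℝ) * K1))) := by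
    have e1 : (N : ℝ) ≤ 2 ^ ((2 : ℝ) * L) := by
      have e2 : (N : ℝ) ≤ 2 ^ (L + 1) := by exact_mod_cast p10.le
      refine e2.trans ?_
      rw [← Real.rpow_natCast]
      refine Real.rpow_le_rpow_of_exponent_le (by norm_num) ?_
      push_cast
      linarith
    calc (N : ℝ) ^ (2 * (1 / (51200 * ((M : ℝ) * K1)) * √k))
        ≤ (2 ^ ((2 : ℝ) * L)) ^ (2 * (1 / (51200 * ((M : ℝ) * K1)) * √k)) :=
          Real.rpow_le_rpow hN0 e1 hE0
      _ = 2 ^ ((2 : ℝ) * L * (2 * (1 / (51200 * ((M : ℝ) * K1)) * √k))) := by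
          rw [← Real.rpow_mul (by norm_num)]
      _ ≤ _ := by
          refine Real.rpow_le_rpow_of_exponent_le (by norm_num) ?_
          calc (2 : ℝ) * L * (2 * (1 / (51200 * ((M : ℝ) * K1)) * √k))
              ≤ (2 : ℝ) * L * (2 * (1 / (51200 * ((M : ℝ) * K1)) * (2 * κ))) := by gcongr
            _ = ((L : ℝ) * κ) / (6400 * ((M : ℝ) * K1)) := by
              field_simp
              ring
  have h3 : (2 : ℝ) ^ (((L : ℝ) * κ) / (3200 * ((M : ℝ) * K1))) ≤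
      ((2 : ℝ) ^ β) ^ (κ / (8 * K1)) := by
    rw [← pow_mul, ← Real.rpow_natCast]
    refine Real.rpow_le_rpow_of_exponent_le (by norm_num) ?_
    rw [div_le_iff₀ (by positivity)]
    have e1 : L * κ ≤ (200 * M * β) * (16 * K1 * (κ / (8 * K1))) := Nat.mul_le_mul p7 p8
    have e2 : (200 * M * β) * (16 * K1 * (κ / (8 * K1))) =
        β * (κ / (8 * K1)) * (3200 * (M * K1)) := by ring
    rw [e2] at e1
    exact_mod_cast e1
  calc (κ : ℝ) * κ * 2 ^ κ * (N : ℝ) ^ (2 * (1 / (51200 * ((M : ℝ) * K1)) * √k))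
      ≤ 2 ^ ((2 : ℝ) * κ) * 2 ^ (((L : ℝ) * κ) / (6400 * ((M : ℝ) * K1))) :=
        mul_le_mul h1 h2 (Real.rpow_nonneg hN0 _) (by positivity)
    _ = 2 ^ ((2 : ℝ) * κ + ((L : ℝ) * κ) / (6400 * ((M : ℝ) * K1))) := by
        rw [← Real.rpow_add (by norm_num)]
    _ ≤ 2 ^ (((L : ℝ) * κ) / (3200 * ((M : ℝ) * K1))) := by
        refine Real.rpow_le_rpow_of_exponent_le (by norm_num) ?_
        have e1 : (2 : ℝ) * κ ≤ ((L : ℝ) * κ) / (6400 * ((M : ℝ) * K1)) := by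
          rw [le_div_iff₀ (by positivity)]
          nlinarith
        have e2 : ((L : ℝ) * κ) / (3200 * ((M : ℝ) * K1)) =
            ((L : ℝ) * κ) / (6400 * ((M : ℝ) * K1)) + ((L : ℝ) * κ) / (6400 * ((M : ℝ) * K1)) := by
          field_simp
          ring
        rw [e2]
        linarith
    _ ≤ _ := h3

end Pool.Agent.L5helper35.KH
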