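import Pool.Agent.L5helper35.KH.Flow

/-!
Formulations of paths in layered graphs, continued.
-/

set_option autoImplicit false

namespace Pool.Agent.L5helper35.KH

open Finset
open Pool.Agent.L5helper35.MIP (Formulation)

section

variable {W Lb : Type} [Fintype W] [Fintype Lb]

theorem sum_layer {k : ℕ} (g : Fin k × W × Lb × W → ℝ) (j0 : ℕ) (hj : j0 < k)
    (hg : ∀ e, e.1.val ≠ j0 → g e = 0) :
    ∑ e, g e = ∑ u, ∑ l, ∑ v, g (⟨j0, hj⟩, u, l, v) := by
  rw [Fintype.sum_prod_type, Finset.sum_eq_single (⟨j0, hj⟩ : Fin k)]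
  · rw [Fintype.sum_prod_type]
    refine Finset.sum_congr rfl fun u _ => ?_
    rw [Fintype.sum_prod_type]
  · intro j _ hne
    refine Finset.sum_eq_zero fun e _ => hg _ fun h => hne (Fin.ext h)
  · exact fun h => absurd (mem_univ _) h

open Classical in
theorem sum_tgt {k : ℕ} (y : Fin k × W × Lb × W → ℝ) (j0 : ℕ) (hj : j0 < k) (w : W) :
    ∑ e, (if e.1.val = j0 ∧ e.2.2.2 = w then (1 : ℝ) else 0) * y e =
      ∑ u, ∑ l, y (⟨j0, hj⟩, u, l, w) := by
  rw [sum_layer _ j0 hj fun e he => by rw [if_neg fun h => he h.1, zero_mul]]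
  refine Finset.sum_congr rfl fun u _ => Finset.sum_congr rfl fun l _ => ?_
  simp

open Classical in
theorem sum_src {k : ℕ} (y : Fin k × W × Lb × W → ℝ) (j0 : ℕ) (hj : j0 < k) (w : W) :
    ∑ e, (if e.1.val = j0 ∧ e.2.1 = w then (1 : ℝ) else 0) * y e =
      ∑ l, ∑ v, y (⟨j0, hj⟩, w, l, v) := by
  rw [sum_layer _ j0 hj fun e he => by rw [if_neg fun h => he h.1, zero_mul]]
  rw [Finset.sum_eq_single w]
  · refine Finset.sum_congr rfl fun u _ => Finset.sum_congr rfl fun l _ => ?_
    simp
  · intro u _ hu
    refine Finset.sum_eq_zero fun l _ => Finset.sum_eq_zero fun v _ => ?_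
    rw [if_neg fun h => hu h.2, zero_mul]
  · exact fun h => absurd (mem_univ _) h

theorem sum_fin_range {k m : ℕ} (hm : m ≤ k) (g : ℕ → ℝ) :
    ∑ j : Fin k, (if j.val < m then g j.val else 0) = ∑ j ∈ range m, g j := by
  rw [Fin.sum_univ_eq_sum_range (fun j => if j < m then g j else 0), ← Finset.sum_filter]
  congr 1
  ext j
  simp only [mem_filter, mem_range]
  omega

/-- Formulations for paths in layered graphs. -/
theorem path_formulation {H P : Type} [Fintype P] (k : ℕ) (len : P → ℕ) (hlen : ∀ p, len p ≤ k)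
    (ok : P → ℕ → W → Lb → W → Prop) (w0 : P → W) (part : H → P) (nd : H → ℕ → W)
    (lb : H → ℕ → Lb) (hpos : ∀ h, 1 ≤ len (part h)) (h0 : ∀ h, nd h 0 = w0 (part h))
    (hok : ∀ h j, j < len (part h) → ok (part h) j (nd h j) (lb h j) (nd h (j + 1))) :
    ∃ F : Formulation H,
      F.size = Fintype.card P *
        (k * (Fintype.card W * (Fintype.card Lb * Fintype.card W)) + 1) ∧
      ∀ (co : Lb → ℝ) (V : H → ℝ) (γ : ℝ), (∀ l, 0 ≤ co l) →
        (∀ h, V h = ∑ j ∈ range (len (part h)), co (lb h j)) →
        (∀ p (nd : ℕ → W) (lb : ℕ → Lb), 1 ≤ len p → nd 0 = w0 p →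
          (∀ j < len p, ok p j (nd j) (lb j) (nd (j + 1))) →
          γ ≤ ∑ j ∈ range (len p), co (lb j)) → F.Certifies V γ := by
  classical
  let E : Type := Fin k × W × Lb × W
  let ok' : P → E → Prop := fun p e =>
    e.1.val < len p ∧ ok p e.1.val e.2.1 e.2.2.1 e.2.2.2 ∧ (e.1.val = 0 → e.2.1 = w0 p)
  let C : P → (E ⊕ ((Fin k × W) ⊕ Unit)) → E → ℝ := fun p q e =>
    match q with
    | .inl e' => if e' = e ∧ ¬ ok' p e then 1 else 0
    | .inr (.inl (j, w)) => if j.val + 1 < len p then
        ((if e.1.val = j.val ∧ e.2.2.2 = w then 1 else 0) -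
          (if e.1.val = j.val + 1 ∧ e.2.1 = w then 1 else 0)) else 0
    | .inr (.inr _) => if e.1.val = 0 ∧ e.2.1 = w0 p then 1 else 0
  let f : P → (E ⊕ ((Fin k × W) ⊕ Unit)) → ℝ := fun p q =>
    match q with
    | .inl _ => 0
    | .inr (.inl _) => 0
    | .inr (.inr _) => 1
  let pe : H → Fin k → E := fun h j => (j, nd h j.val, lb h j.val, nd h (j.val + 1))
  let pt : H → E → ℝ := fun h e =>
    ∑ j : Fin k, if j.val < len (part h) ∧ e = pe h j then 1 else 0
  have hsum : ∀ (h : H) (g : E → ℝ), ∑ e, g e * pt h e =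
      ∑ j : Fin k, if j.val < len (part h) then g (pe h j) else 0 := by
    intro h g
    simp only [pt, Finset.mul_sum]
    rw [Finset.sum_comm]
    refine Finset.sum_congr rfl fun j _ => ?_
    by_cases hj : j.val < len (part h)
    · rw [if_pos hj, Finset.sum_eq_single (pe h j)]
      · rw [if_pos ⟨hj, rfl⟩, mul_one]
      · intro e _ he
        rw [if_neg fun h' => he h'.2, mul_zero]
      · exact fun h' => absurd (mem_univ _) h'
    · rw [if_neg hj]
      refine Finset.sum_eq_zero fun e _ => ?_
      rw [if_neg fun h' => hj h'.1, mul_zero]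
  obtain ⟨F, hF, hC⟩ := mkF C f part pt (fun h e => Finset.sum_nonneg fun j _ => by
    split_ifs <;> norm_num) (by
    intro h q
    rw [hsum]
    rcases q with e' | ⟨j0, w⟩ | q
    · change _ = (0 : ℝ)
      refine Finset.sum_eq_zero fun j _ => ?_
      by_cases hj : j.val < len (part h)
      · rw [if_pos hj]
        change (if e' = pe h j ∧ ¬ ok' (part h) (pe h j) then (1 : ℝ) else 0) = 0
        rw [if_neg]
        rintro ⟨-, h'⟩
        refine h' ⟨hj, hok h j.val hj, fun hj0 => ?_⟩
        change nd h j.val = w0 (part h)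
        rw [hj0]
        exact h0 h
      · rw [if_neg hj]
    · change _ = (0 : ℝ)
      by_cases hj0 : j0.val + 1 < len (part h)
      · have e1 : ∀ j : Fin k, (if j.val < len (part h) then C (part h) (.inr (.inl (j0, w))) (pe h j)
            else 0) = (if j = j0 then (if nd h (j0.val + 1) = w then 1 else 0) else 0) -
              (if j = (⟨j0.val + 1, hj0.trans_le (hlen _)⟩ : Fin k) then
                (if nd h (j0.val + 1) = w then 1 else 0) else 0) := by
          intro j
          have e2 : C (part h) (.inr (.inl (j0, w))) (pe h j) =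
              (if j.val = j0.val ∧ nd h (j.val + 1) = w then 1 else 0) -
                (if j.val = j0.val + 1 ∧ nd h j.val = w then 1 else 0) := by
            change (if j0.val + 1 < len (part h) then _ else (0 : ℝ)) = _
            rw [if_pos hj0]
          rw [e2]
          by_cases h1 : j = j0
          · subst h1
            have h2 : j ≠ (⟨j.val + 1, hj0.trans_le (hlen _)⟩ : Fin k) := fun h => by
              have := congrArg Fin.val h
              simp at this
            rw [if_pos (by omega), if_pos rfl, if_neg h2, if_neg (by omega : ¬ (j.val = j.val + 1 ∧ _))]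
            by_cases h3 : nd h (j.val + 1) = w
            · rw [if_pos ⟨rfl, h3⟩, if_pos h3]
            · rw [if_neg (fun h => h3 h.2), if_neg h3]
          · have h1' : j.val ≠ j0.val := fun h => h1 (Fin.ext h)
            rw [if_neg h1, if_neg (fun h => h1' h.1 : ¬ (j.val = j0.val ∧ nd h (j.val + 1) = w))]
            by_cases h2 : j = (⟨j0.val + 1, hj0.trans_le (hlen _)⟩ : Fin k)
            · have h2' : j.val = j0.val + 1 := congrArg Fin.val h2
              rw [if_pos (by omega), if_pos h2, h2']
              by_cases h3 : nd h (j0.val + 1) = w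
              · rw [if_pos ⟨rfl, h3⟩, if_pos h3]
              · rw [if_neg (fun h => h3 h.2), if_neg h3]
            · have h2' : j.val ≠ j0.val + 1 := fun h => h2 (Fin.ext h)
              rw [if_neg h2, if_neg (fun h => h2' h.1 : ¬ (j.val = j0.val + 1 ∧ nd h j.val = w))]
              split_ifs <;> norm_num
        rw [Finset.sum_congr rfl fun j _ => e1 j, Finset.sum_sub_distrib, Finset.sum_ite_eq',
          Finset.sum_ite_eq', if_pos (mem_univ _), if_pos (mem_univ _), sub_self]
      · refine Finset.sum_eq_zero fun j _ => ?_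
        have e2 : C (part h) (.inr (.inl (j0, w))) (pe h j) = 0 := by
          change (if j0.val + 1 < len (part h) then _ else (0 : ℝ)) = _
          rw [if_neg hj0]
        rw [e2]
        split_ifs <;> rfl
    · change _ = (1 : ℝ)
      have hk0 : 0 < k := lt_of_lt_of_le (hpos h) (hlen _)
      rw [Finset.sum_eq_single (⟨0, hk0⟩ : Fin k)]
      · rw [if_pos (show (0 : ℕ) < len (part h) from hpos h)]
        change (if (0 : ℕ) = 0 ∧ nd h 0 = w0 (part h) then (1 : ℝ) else 0) = 1
        rw [if_pos ⟨rfl, h0 h⟩]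
      · intro j _ hj
        have hj' : j.val ≠ 0 := fun h => hj (Fin.ext h)
        have e2 : C (part h) (.inr (.inr q)) (pe h j) = 0 := by
          change (if j.val = 0 ∧ nd h j.val = w0 (part h) then (1 : ℝ) else 0) = 0
          rw [if_neg fun h => hj' h.1]
        rw [e2]
        split_ifs <;> rfl
      · exact fun h => absurd (mem_univ _) h)
  refine ⟨F, ?_, ?_⟩
  · rw [hF]
    congr 2
    change Fintype.card (Fin k × W × Lb × W) = _
    rw [Fintype.card_prod, Fintype.card_prod, Fintype.card_prod, Fintype.card_fin]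
  · intro co V γ hco hV hpath
    refine hC V γ (fun _ e => co e.2.2.1) (fun h => ?_) (fun p y hy hyq => ?_)
    · rw [hsum, hV h]
      exact sum_fin_range (hlen _) fun j => co (lb h j)
    · have hst : ∑ e, (if e.1.val = 0 ∧ e.2.1 = w0 p then (1 : ℝ) else 0) * y e = 1 :=
        hyq (.inr (.inr ()))
      have hz : ∀ e : E, ¬ ok' p e → y e = 0 := by
        intro e he
        have h1 : ∑ e', (if e = e' ∧ ¬ ok' p e' then (1 : ℝ) else 0) * y e' = 0 := hyq (.inl e)
        rw [Finset.sum_eq_single e] at h1
        · rw [if_pos ⟨rfl, he⟩, one_mul] at h1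
          exact h1
        · intro e' _ hne
          rw [if_neg fun h => hne h.1.symm, zero_mul]
        · exact fun h => absurd (mem_univ _) h
      have hlp : 1 ≤ len p := by
        by_contra hcon
        have h1 : ∑ e : E, (if e.1.val = 0 ∧ e.2.1 = w0 p then (1 : ℝ) else 0) * y e = 0 := by
          refine Finset.sum_eq_zero fun e _ => ?_
          rw [hz e fun h => by
            have := h.1
            omega, mul_zero]
        rw [h1] at hst
        norm_num at hst
      have hk0 : 0 < k := lt_of_lt_of_le hlp (hlen _)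
      let Y : ℕ → W → Lb → W → ℝ := fun j u l v => if h : j < k then y (⟨j, h⟩, u, l, v) else 0
      have hYj : ∀ (j : ℕ) (h : j < k) (u : W) (l : Lb) (v : W), Y j u l v = y (⟨j, h⟩, u, l, v) :=
        fun j h u l v => dif_pos h
      have key := flow_bound (len p) hlp (fun j u l v => ok p j u l v) (w0 p) co hco γ
        (fun nd lb h1 h2 => hpath p nd lb hlp h1 h2) Y (fun j u l v => by
          simp only [Y]
          split_ifs
          · exact hy _
          · exact le_rfl) (fun j u l v hj hn => by
          rw [hYj j (hj.trans_le (hlen p))]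
          refine hz _ fun h => hn ⟨h.2.1, h.2.2⟩) (fun j w hj => by
          have hj1 : j < k := (Nat.lt_of_succ_lt hj).trans_le (hlen p)
          have hj2 : j + 1 < k := hj.trans_le (hlen p)
          have h1 : ∑ e : E, (if (⟨j, hj1⟩ : Fin k).val + 1 < len p then
              ((if e.1.val = (⟨j, hj1⟩ : Fin k).val ∧ e.2.2.2 = w then (1 : ℝ) else 0) -
              (if e.1.val = (⟨j, hj1⟩ : Fin k).val + 1 ∧ e.2.1 = w then 1 else 0)) else 0) * y e = 0 :=
            hyq (.inr (.inl (⟨j, hj1⟩, w)))
          simp only [if_pos hj, sub_mul] at h1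
          rw [Finset.sum_sub_distrib, sum_tgt y j hj1 w, sum_src y (j + 1) hj2 w] at h1
          have h2 : ∑ u, ∑ l, Y j u l w = ∑ u, ∑ l, y (⟨j, hj1⟩, u, l, w) :=
            Finset.sum_congr rfl fun u _ => Finset.sum_congr rfl fun l _ => hYj j hj1 u l w
          have h3 : ∑ l, ∑ v, Y (j + 1) w l v = ∑ l, ∑ v, y (⟨j + 1, hj2⟩, w, l, v) :=
            Finset.sum_congr rfl fun l _ => Finset.sum_congr rfl fun v _ => hYj (j + 1) hj2 w l v
          rw [h2, h3]
          linarith) (by
          rw [sum_src y 0 hk0 (w0 p)] at hst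
          rw [← hst]
          exact Finset.sum_congr rfl fun l _ => Finset.sum_congr rfl fun v _ => hYj 0 hk0 _ l v)
      refine key.trans (le_of_eq ?_)
      have h4 : ∑ e : E, co e.2.2.1 * y e = ∑ j : Fin k, ∑ u, ∑ l, ∑ v,
          co l * y (j, u, l, v) := by
        change ∑ e : Fin k × W × Lb × W, co e.2.2.1 * y e = _
        rw [Fintype.sum_prod_type]
        refine Finset.sum_congr rfl fun j _ => ?_
        rw [Fintype.sum_prod_type]
        refine Finset.sum_congr rfl fun u _ => ?_
        rw [Fintype.sum_prod_type]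
      rw [h4, ← sum_fin_range (hlen p)]
      refine Finset.sum_congr rfl fun j _ => ?_
      by_cases hj : j.val < len p
      · rw [if_pos hj]
        refine Finset.sum_congr rfl fun u _ => Finset.sum_congr rfl fun l _ =>
          Finset.sum_congr rfl fun v _ => ?_
        rw [hYj j.val j.2, mul_comm]
      · rw [if_neg hj]
        symm
        refine Finset.sum_eq_zero fun u _ => Finset.sum_eq_zero fun l _ =>
          Finset.sum_eq_zero fun v _ => ?_
        rw [hz (j, u, l, v) fun h => hj h.1, mul_zero]

end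

end Pool.Agent.L5helper35.KH
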