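import Pool.Agent.L5helper58.KS.Red

/-!
The computation of the machine which looks for a clique, with its list of transitions.
-/

set_option autoImplicit false

namespace Pool.Agent.L5helper35.KH

open Pool.Agent.L5helper58.KS

/-- transitions of the abstract machine -/
abbrev TT (κ m : ℕ) : Type := St κ m × Sy κ m × St κ m × Sy κ m × Option Bool

/-- the transitions `l` lead from `a` to `b` -/
inductive LRun {κ m : ℕ} (G : SimpleGraph (Fin m)) :
    List (TT κ m) → Cf (St κ m) (Sy κ m) → Cf (St κ m) (Sy κ m) → Prop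
  | nil (a : Cf (St κ m) (Sy κ m)) : LRun G [] a a
  | snoc {l : List (TT κ m)} {a b : Cf (St κ m) (Sy κ m)} (h : LRun G l a b) (q' : St κ m)
      (a' : Sy κ m) (d : Option Bool) (ht : Tr G b.st (b.tp b.hd) q' a' d) :
      LRun G (l ++ [(b.st, b.tp b.hd, q', a', d)]) a
        ⟨q', b.hd + move d, Function.update b.tp b.hd a'⟩

theorem LRun.trans {κ m : ℕ} {G : SimpleGraph (Fin m)} {l l' : List (TT κ m)}
    {a b c : Cf (St κ m) (Sy κ m)} (h : LRun G l a b) (h' : LRun G l' b c) :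
    LRun G (l ++ l') a c := by
  induction h' with
  | nil => rw [List.append_nil]; exact h
  | snoc _ q' a' d ht ih =>
    rw [← List.append_assoc]
    exact (ih h).snoc q' a' d ht

/-- the transition which checks the pair `i`, `j` -/
def chk {κ m : ℕ} (v : Fin κ → Fin m) (i j : Fin κ) : TT κ m :=
  (.sw i (v i), some (j, v j), .sw i (v i), some (j, v j), some true)

/-- transitions which are not checks -/
def NotChk {κ m : ℕ} (t : TT κ m) : Prop :=
  ∀ (i j : Fin κ) (v w : Fin m), ¬ (t.1 = .sw i v ∧ t.2.1 = some (j, w))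

/-- There is a list of `n` transitions from `a` to `b`, and the sum of the values of each function `f` which
vanishes outside the checks is `w f`. -/
def CRun {κ m : ℕ} (G : SimpleGraph (Fin m)) (n : ℕ) (w : (TT κ m → ℕ) → ℕ)
    (a b : Cf (St κ m) (Sy κ m)) : Prop :=
  ∃ l : List (TT κ m), l.length = n ∧ LRun G l a b ∧
    ∀ f : TT κ m → ℕ, (∀ t, NotChk t → f t = 0) → (l.map f).sum = w f

section

variable {κ m : ℕ} {G : SimpleGraph (Fin m)}

theorem CRun.trans {n n' : ℕ} {w w' : (TT κ m → ℕ) → ℕ} {a b c : Cf (St κ m) (Sy κ m)}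
    (h : CRun G n w a b) (h' : CRun G n' w' b c) :
    CRun G (n + n') (fun f => w f + w' f) a c := by
  obtain ⟨l, hl, h1, h2⟩ := h
  obtain ⟨l', hl', h1', h2'⟩ := h'
  refine ⟨l ++ l', by rw [List.length_append, hl, hl'], h1.trans h1', fun f hf => ?_⟩
  rw [List.map_append, List.sum_append, h2 f hf, h2' f hf]

theorem CRun.congr {n n' : ℕ} {w w' : (TT κ m → ℕ) → ℕ} {a b : Cf (St κ m) (Sy κ m)}
    (h : CRun G n w a b) (hn : n = n') (hw : ∀ f, w f = w' f) : CRun G n' w' a b := by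
  subst hn
  have : w = w' := funext hw
  subst this
  exact h

theorem CRun.refl (a : Cf (St κ m) (Sy κ m)) : CRun G 0 (fun _ => 0) a a :=
  ⟨[], rfl, .nil a, fun _ _ => rfl⟩

/-- one step without a check -/
theorem CRun.step {q : St κ m} {x : ℤ} {T : ℤ → Sy κ m} (q' : St κ m) (a' : Sy κ m)
    (d : Option Bool) (ht : Tr G q (T x) q' a' d)
    (hn : ∀ (i j : Fin κ) (v w : Fin m), ¬ (q = .sw i v ∧ T x = some (j, w))) :
    CRun G 1 (fun _ => 0) ⟨q, x, T⟩ ⟨q', x + move d, Function.update T x a'⟩ := by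
  refine ⟨[(q, T x, q', a', d)], rfl, ?_, fun f hf => ?_⟩
  · have := (LRun.nil (G := G) (⟨q, x, T⟩ : Cf (St κ m) (Sy κ m))).snoc q' a' d ht
    exact this
  · rw [List.map_singleton, List.sum_singleton]
    exact hf _ hn

/-- one step without a check and without a change of the tape -/
theorem CRun.step' {q q' : St κ m} {x y : ℤ} {T : ℤ → Sy κ m} {d : Option Bool}
    (ht : Tr G q (T x) q' (T x) d) (hy : y = x + move d)
    (hn : ∀ (i j : Fin κ) (v w : Fin m), ¬ (q = .sw i v ∧ T x = some (j, w))) :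
    CRun G 1 (fun _ => 0) ⟨q, x, T⟩ ⟨q', y, T⟩ := by
  have := CRun.step q' (T x) d ht hn
  rw [Function.update_eq_self, ← hy] at this
  exact this

variable (v : Fin κ → Fin m)

theorem c_guess (i : ℕ) (hi : i ≤ κ) :
    CRun G i (fun _ => 0) (cf0 κ m) ⟨.g ⟨i, by omega⟩, i, tapeOf v i⟩ := by
  induction i with
  | zero =>
    have : tapeOf v 0 = fun _ => none := by
      funext x
      unfold tapeOf
      rw [dif_neg]
      rintro ⟨-, h, -⟩
      omega
    rw [this]
    exact .refl _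
  | succ i ih =>
    have h1 := ih (by omega)
    have h2 : CRun G 1 (fun _ => 0) ⟨.g ⟨i, by omega⟩, i, tapeOf v i⟩
        ⟨.g ⟨i + 1, by omega⟩, (i : ℤ) + move (some true),
          Function.update (tapeOf v i) (i : ℤ) (some (⟨i, by omega⟩, v ⟨i, by omega⟩))⟩ := by
      refine CRun.step _ _ _ ?_ ?_
      · rw [tapeOf_none v le_rfl]
        exact Tr.guess (G := G) ⟨i, by omega⟩ _
      · intro a b p r h
        exact absurd h.1 (by simp)
    have h3 := tapeOf_update v ⟨i, by omega⟩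
    simp only at h3
    rw [h3] at h2
    have h4 : ((i : ℤ) + move (some true)) = ((i + 1 : ℕ) : ℤ) := by simp [move]
    rw [h4] at h2
    exact (h1.trans h2).congr rfl fun _ => rfl

theorem c_back (i : Fin κ) (n : ℕ) (hn : i.1 + n < κ) :
    CRun G n (fun _ => 0) ⟨.ret i, (i.1 + n : ℕ), tapeOf v κ⟩
      ⟨.ret i, (i.1 : ℕ), tapeOf v κ⟩ := by
  induction n with
  | zero => exact .refl _
  | succ n ih =>
    have h1 : CRun G 1 (fun _ => 0) ⟨.ret i, (i.1 + (n + 1) : ℕ), tapeOf v κ⟩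
        ⟨.ret i, (i.1 + n : ℕ), tapeOf v κ⟩ := by
      refine CRun.step' (d := some false) ?_ (by simp [move]; ring) ?_
      · have := tapeOf_some v (i := κ) ⟨i.1 + (n + 1), hn⟩ hn
        rw [this]
        exact Tr.back (G := G) i _ _ (Fin.mk_lt_mk.mpr (by omega) : i < ⟨i.1 + (n + 1), hn⟩)
      · intro a b p r h
        exact absurd h.1 (by simp)
    exact (h1.trans (ih (by omega))).congr (by ring) fun _ => rfl

theorem c_check (hv : ∀ a b : Fin κ, a < b → G.Adj (v a) (v b)) (i : Fin κ) (n : ℕ)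
    (hn : i.1 + 1 + n ≤ κ) :
    CRun G n (fun f => ∑ j : Fin κ, if i < j ∧ j.1 < i.1 + 1 + n then f (chk v i j) else 0)
      ⟨.sw i (v i), (i.1 + 1 : ℕ), tapeOf v κ⟩
      ⟨.sw i (v i), (i.1 + 1 + n : ℕ), tapeOf v κ⟩ := by
  induction n with
  | zero =>
    refine (CRun.refl _).congr rfl fun f => ?_
    symm
    refine Finset.sum_eq_zero fun j _ => ?_
    rw [if_neg]
    rintro ⟨h1, h2⟩
    rw [Fin.lt_def] at h1
    omega
  | succ n ih =>
    have hlt : i < (⟨i.1 + 1 + n, by omega⟩ : Fin κ) := Fin.mk_lt_mk.mpr (by omega)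
    have h1 : CRun G 1 (fun f => f (chk v i ⟨i.1 + 1 + n, by omega⟩))
        ⟨.sw i (v i), (i.1 + 1 + n : ℕ), tapeOf v κ⟩
        ⟨.sw i (v i), (i.1 + 1 + (n + 1) : ℕ), tapeOf v κ⟩ := by
      have e1 := tapeOf_some v (i := κ) ⟨i.1 + 1 + n, by omega⟩ (by simp only; omega)
      simp only at e1
      refine ⟨[chk v i ⟨i.1 + 1 + n, by omega⟩], rfl, ?_, fun f hf => ?_⟩
      · have h2 := (LRun.nil (G := G) (⟨.sw i (v i), (i.1 + 1 + n : ℕ), tapeOf v κ⟩ :
          Cf (St κ m) (Sy κ m))).snoc (.sw i (v i)) (tapeOf v κ (i.1 + 1 + n : ℕ)) (some true) (by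
            simp only
            rw [e1]
            exact Tr.check (G := G) i _ _ _ hlt (hv _ _ hlt))
        simp only [List.nil_append, Function.update_eq_self] at h2
        have h3 : (((i.1 + 1 + n : ℕ) : ℤ) + move (some true)) = ((i.1 + 1 + (n + 1) : ℕ) : ℤ) := by
          simp [move]; ring
        rw [h3] at h2
        have h4 : chk v i ⟨i.1 + 1 + n, by omega⟩ = (St.sw i (v i), tapeOf v κ (i.1 + 1 + n : ℕ),
            St.sw i (v i), tapeOf v κ (i.1 + 1 + n : ℕ), some true) := by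
          unfold chk
          rw [e1]
        rw [h4]
        exact h2
      · rw [List.map_singleton, List.sum_singleton]
    refine ((ih (by omega)).trans h1).congr rfl fun f => ?_
    have h5 : ∀ j : Fin κ, (if i < j ∧ j.1 < i.1 + 1 + (n + 1) then f (chk v i j) else 0) =
        (if i < j ∧ j.1 < i.1 + 1 + n then f (chk v i j) else 0) +
          (if j = ⟨i.1 + 1 + n, by omega⟩ then f (chk v i j) else 0) := by
      intro j
      by_cases hj : j = ⟨i.1 + 1 + n, by omega⟩
      · rw [if_pos hj]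
        have h6 : j.1 = i.1 + 1 + n := by rw [hj]
        rw [if_pos ⟨by rw [Fin.lt_def]; omega, by omega⟩, if_neg (by rintro ⟨-, h⟩; omega), zero_add]
      · rw [if_neg hj, add_zero]
        have h6 : j.1 ≠ i.1 + 1 + n := fun h => hj (Fin.ext h)
        refine if_congr ?_ rfl rfl
        constructor
        · rintro ⟨h7, h8⟩
          exact ⟨h7, by omega⟩
        · rintro ⟨h7, h8⟩
          exact ⟨h7, by omega⟩
    simp only [h5]
    rw [Finset.sum_add_distrib, Finset.sum_ite_eq', if_pos (Finset.mem_univ _)]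

/-- the sum of `f` over the pairs checked in the first `a` rounds -/
def wt (a : ℕ) (f : TT κ m → ℕ) : ℕ :=
  ∑ i : Fin κ, ∑ j : Fin κ, if i.1 < a ∧ i < j then f (chk v i j) else 0

theorem c_round (hv : ∀ a b : Fin κ, a < b → G.Adj (v a) (v b)) (i : Fin κ) :
    CRun G (2 * (κ - i.1) - 1) (fun f => ∑ j : Fin κ, if i < j then f (chk v i j) else 0)
      ⟨.ret i, (κ - 1 : ℕ), tapeOf v κ⟩
      ⟨.sw i (v i), (κ : ℕ), tapeOf v κ⟩ := by
  have hi := i.2
  have h1 := c_back (G := G) v i (κ - 1 - i.1) (by omega)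
  have e1 : i.1 + (κ - 1 - i.1) = κ - 1 := by omega
  rw [e1] at h1
  have h2 : CRun G 1 (fun _ => 0) ⟨.ret i, (i.1 : ℕ), tapeOf v κ⟩
      ⟨.sw i (v i), (i.1 + 1 : ℕ), tapeOf v κ⟩ := by
    refine CRun.step' (d := some true) ?_ (by simp [move]) ?_
    · rw [tapeOf_some v i i.2]
      exact Tr.pick i _
    · intro a b p r h
      exact absurd h.1 (by simp)
  have h3 := c_check v hv i (κ - 1 - i.1) (by omega)
  have e2 : i.1 + 1 + (κ - 1 - i.1) = κ := by omega
  rw [e2] at h3
  refine ((h1.trans h2).trans h3).congr (by omega) fun f => ?_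
  simp only [zero_add]
  refine Finset.sum_congr rfl fun j _ => if_congr ?_ rfl rfl
  exact ⟨fun h => h.1, fun h => ⟨h, j.2⟩⟩

theorem wt_succ (a : ℕ) (ha : a < κ) (f : TT κ m → ℕ) :
    wt v (a + 1) f = wt v a f + ∑ j : Fin κ, if (⟨a, ha⟩ : Fin κ) < j then f (chk v ⟨a, ha⟩ j) else 0 := by
  unfold wt
  have h1 : ∀ i : Fin κ, (∑ j : Fin κ, if i.1 < a + 1 ∧ i < j then f (chk v i j) else 0) =
      (∑ j : Fin κ, if i.1 < a ∧ i < j then f (chk v i j) else 0) +
      (if i = ⟨a, ha⟩ then ∑ j : Fin κ, (if i < j then f (chk v i j) else 0) else 0) := by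
    intro i
    by_cases hi : i = ⟨a, ha⟩
    · subst hi
      rw [if_pos rfl]
      have h2 : (∑ j : Fin κ, if (⟨a, ha⟩ : Fin κ).1 < a ∧ (⟨a, ha⟩ : Fin κ) < j then
          f (chk v ⟨a, ha⟩ j) else 0) = 0 := by
        refine Finset.sum_eq_zero fun j _ => ?_
        rw [if_neg]
        rintro ⟨h, -⟩
        simp at h
      rw [h2, zero_add]
      refine Finset.sum_congr rfl fun j _ => if_congr ?_ rfl rfl
      simp
    · rw [if_neg hi, add_zero]
      have h6 : i.1 ≠ a := fun h => hi (Fin.ext h)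
      refine Finset.sum_congr rfl fun j _ => if_congr ?_ rfl rfl
      constructor
      · rintro ⟨h7, h8⟩
        exact ⟨by omega, h8⟩
      · rintro ⟨h7, h8⟩
        exact ⟨by omega, h8⟩
  simp only [h1]
  rw [Finset.sum_add_distrib, Finset.sum_ite_eq', if_pos (Finset.mem_univ _)]

theorem c_rounds (hκ : 2 ≤ κ) (hv : ∀ a b : Fin κ, a < b → G.Adj (v a) (v b)) (i : ℕ)
    (hi : i + 2 ≤ κ) : ∃ n, n + i * i ≤ κ + 1 + i * (2 * κ + 1) ∧
      CRun G n (wt v i) (cf0 κ m) ⟨.ret ⟨i, by omega⟩, (κ - 1 : ℕ), tapeOf v κ⟩ := by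
  induction i with
  | zero =>
    refine ⟨κ + 1, by omega, ?_⟩
    have h1 := c_guess (G := G) v κ le_rfl
    have h2 : CRun G 1 (fun _ => 0) ⟨.g ⟨κ, by omega⟩, (κ : ℤ), tapeOf v κ⟩
        ⟨.ret ⟨0, by omega⟩, ((κ - 1 : ℕ) : ℤ), tapeOf v κ⟩ := by
      refine CRun.step' (d := some false) ?_ ?_ ?_
      · rw [tapeOf_none v le_rfl]
        exact Tr.turn (G := G) _ rfl
      · simp only [move]
        push_cast [Nat.cast_sub (by omega : 1 ≤ κ)]
        ring
      · intro a b p r h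
        exact absurd h.1 (by simp)
    refine (h1.trans h2).congr rfl fun f => ?_
    symm
    unfold wt
    refine Finset.sum_eq_zero fun i _ => Finset.sum_eq_zero fun j _ => ?_
    rw [if_neg]
    rintro ⟨h, -⟩
    omega
  | succ i ih =>
    obtain ⟨n, hn, hrun⟩ := ih (by omega)
    have h1 := c_round v hv ⟨i, by omega⟩
    have h2 : CRun G 1 (fun _ => 0) ⟨.sw ⟨i, by omega⟩ (v ⟨i, by omega⟩), (κ : ℕ), tapeOf v κ⟩
        ⟨.ret ⟨i + 1, by omega⟩, ((κ - 1 : ℕ) : ℤ), tapeOf v κ⟩ := by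
      refine CRun.step' (d := some false) ?_ ?_ ?_
      · rw [tapeOf_none v le_rfl]
        exact Tr.next (G := G) _ _ _ rfl (by simp only; omega)
      · simp only [move]
        push_cast [Nat.cast_sub (by omega : 1 ≤ κ)]
        ring
      · intro a b p r h
        have h5 := h.2
        rw [tapeOf_none v le_rfl] at h5
        exact absurd h5 (by simp)
    refine ⟨n + (2 * (κ - i) - 1) + 1, ?_, ((hrun.trans h1).trans h2).congr rfl fun f => ?_⟩
    · have e1 : n + (2 * (κ - i) - 1) + 1 + (i + 1) * (i + 1) = n + i * i + (2 * κ + 1) := by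
        have : 2 * (κ - i) - 1 + 1 + 2 * i = 2 * κ := by omega
        have e2 : (i + 1) * (i + 1) = i * i + 2 * i + 1 := by ring
        rw [e2]
        omega
      have e3 : (i + 1) * (2 * κ + 1) = i * (2 * κ + 1) + (2 * κ + 1) := by ring
      omega
    · rw [wt_succ v i (by omega) f, add_zero]

theorem c_complete (hκ : 2 ≤ κ) (hv : ∀ a b : Fin κ, a < b → G.Adj (v a) (v b)) :
    ∃ n, n + 1 ≤ κ * κ + 2 * κ ∧ ∃ c, CRun G n (fun f =>
      ∑ i : Fin κ, ∑ j : Fin κ, if i < j then f (chk v i j) else 0) (cf0 κ m) c ∧ c.st = .halt := by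
  obtain ⟨n, hn, hrun⟩ := c_rounds (G := G) v hκ hv (κ - 2) (by omega)
  have h1 := c_round v hv ⟨κ - 2, by omega⟩
  have h2 : CRun G 1 (fun _ => 0)
      ⟨.sw ⟨κ - 2, by omega⟩ (v ⟨κ - 2, by omega⟩), (κ : ℕ), tapeOf v κ⟩
      ⟨.halt, (κ : ℕ), tapeOf v κ⟩ := by
    refine CRun.step' (d := none) ?_ (by simp [move]) ?_
    · rw [tapeOf_none v le_rfl]
      exact Tr.fin (G := G) _ _ (by simp only; omega)
    · intro a b p r h
      have h5 := h.2
      rw [tapeOf_none v le_rfl] at h5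
      exact absurd h5 (by simp)
  refine ⟨n + (2 * (κ - (κ - 2)) - 1) + 1, ?_, _, ((hrun.trans h1).trans h2).congr rfl
    fun f => ?_, rfl⟩
  · have e1 : 2 * (κ - (κ - 2)) - 1 = 3 := by omega
    rw [e1]
    obtain ⟨a, rfl⟩ : ∃ a, κ = a + 2 := ⟨κ - 2, by omega⟩
    have e2 : a + 2 - 2 = a := by omega
    rw [e2] at hn
    have e3 : a * (2 * (a + 2) + 1) = 2 * (a * a) + 5 * a := by ring
    have e4 : (a + 2) * (a + 2) = a * a + 4 * a + 4 := by ring
    omega
  · rw [add_zero]
    have h3 := wt_succ v (κ - 2) (by omega) f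
    rw [← h3]
    unfold wt
    refine Finset.sum_congr rfl fun i _ => Finset.sum_congr rfl fun j _ => if_congr ?_ rfl rfl
    constructor
    · rintro ⟨-, h⟩
      exact h
    · intro h
      refine ⟨?_, h⟩
      rw [Fin.lt_def] at h
      have := j.2
      omega

end

end Pool.Agent.L5helper35.KH
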