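import Pool.Agent.L5helper58.KS.Up
import Pool.Agent.L5helper35.KH.PathF
import Pool.Agent.L5helper35.KH.Defs

/-!
The upper bound: formulations of size `n ^ O(√k)`.
-/

set_option autoImplicit false

namespace Pool.Agent.L5helper35.KH

open Finset
open Pool.Agent.L5helper58.KS
open Pool.Agent.L5helper35.MIP (Formulation)

section

variable {n : ℕ}

theorem leads_append' {l l' : List (Tab n)} {a b c : Config} (h : Leads l a b)
    (h' : Leads l' b c) : Leads (l ++ l') a c := by
  induction l generalizing a with
  | nil =>
    have : a = b := h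
    subst this
    exact h'
  | cons e l ih => exact ⟨h.1, ih h.2⟩

theorem after_runc {δ : ℕ → Trans} {i : ℕ} {e : Tab n} (h : δ i = code e) :
    after e (runc δ i) = runc δ (i + 1) := by
  change _ = (⟨(δ i).2.2.1, (runc δ i).head + move (δ i).2.2.2.2,
      Function.update (runc δ i).tape (runc δ i).head (δ i).2.2.2.1⟩ : Config)
  rw [h]
  rfl

/-- the configurations of a computation -/
theorem valid_of_leads {u : Tab n → Bool} {l : List (Tab n)} {c : Config} (e0 : Tab n)
    (hu : ∀ e ∈ l, u e = true) (h : Leads l ⟨0, 0, fun _ => 0⟩ c) (δ : ℕ → Trans)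
    (hδ : ∀ i, δ i = code (l.getD i e0)) :
    Valid (machineOf u) δ l.length ∧ runc δ l.length = c := by
  have key : ∀ a ≤ l.length, Leads (l.drop a) (runc δ a) c := by
    intro a
    induction a with
    | zero => exact fun _ => h
    | succ a ih =>
      intro ha
      have h1 := ih (by omega)
      rw [List.drop_eq_getElem_cons (by omega : a < l.length)] at h1
      have h2 := h1.2
      rw [after_runc (e := l[a]) (by rw [hδ a, List.getD_eq_getElem l e0 (by omega)])] at h2
      exact h2
  constructor
  · intro i hi
    have h1 := key i hi.le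
    rw [List.drop_eq_getElem_cons hi] at h1
    have e1 : l.getD i e0 = l[i] := List.getD_eq_getElem l e0 hi
    refine ⟨?_, ?_, ?_⟩
    · rw [mem_machineOf]
      exact ⟨l[i], hu _ (List.getElem_mem hi), by rw [hδ i, e1]⟩
    · rw [h1.1.1, hδ i, e1]
      rfl
    · rw [h1.1.2, hδ i, e1]
      rfl
  · have h1 := key l.length le_rfl
    rw [List.drop_length] at h1
    exact h1

theorem leads_of_valid {u : Tab n → Bool} {δ : ℕ → Trans} {m : ℕ}
    (hv : Valid (machineOf u) δ m) (e : ℕ → Tab n) (he : ∀ i < m, δ i = code (e i)) :
    Leads ((List.range m).map e) ⟨0, 0, fun _ => 0⟩ (runc δ m) := by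
  induction m with
  | zero => rfl
  | succ m ih =>
    rw [List.range_succ, List.map_append]
    refine leads_append' (ih (fun i hi => hv i (by omega)) (fun i hi => he i (by omega))) ?_
    obtain ⟨-, h2, h3⟩ := hv m (Nat.lt_succ_self m)
    have h4 := he m (Nat.lt_succ_self m)
    rw [h4] at h2 h3
    exact ⟨⟨h2, h3⟩, after_runc h4⟩

/-- the cost of a transition -/
noncomputable def co (x : Tab n → Bool) (e : Tab n) : ℝ := if x e = true then 0 else 1

theorem forbidden_eq (x : Tab n → Bool) (e0 : Tab n) (l : List (Tab n)) :
    (forbidden x l : ℝ) = ∑ i ∈ range l.length, co x (l.getD i e0) := by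
  induction l with
  | nil => simp [forbidden]
  | cons e l ih =>
    rw [List.length_cons, Finset.sum_range_succ']
    simp only [List.getD_cons_succ, List.getD_cons_zero]
    rw [← ih]
    unfold forbidden
    rw [List.countP_cons]
    push_cast
    congr 1
    unfold co
    cases x e <;> simp

/-- a sum in another order -/
theorem sum_perm {m : ℕ} {O : List ℕ} (hnd : O.Nodup) (hmem : ∀ i, i ∈ O ↔ i < m) (g : ℕ → ℝ) :
    O.length = m ∧ ∑ j ∈ range m, g (O.getD j 0) = ∑ i ∈ range m, g i := by
  have h1 : O.toFinset = range m := by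
    ext i
    rw [List.mem_toFinset, hmem, mem_range]
  have h2 : O.length = m := by
    rw [← List.toFinset_card_of_nodup hnd, h1, card_range]
  refine ⟨h2, ?_⟩
  rw [← h1, List.sum_toFinset g hnd]
  have h3 : ∀ L : List ℕ, ∑ j ∈ range L.length, g (L.getD j 0) = (L.map g).sum := by
    intro L
    induction L with
    | nil => simp
    | cons a L ih =>
      rw [List.length_cons, Finset.sum_range_succ', List.map_cons, List.sum_cons, ← ih, add_comm]
      simp
  rw [← h3 O, h2, h1]

end

end Pool.Agent.L5helper35.KH
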