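import Pool.Agent.L5helper35.KH.Upper

/-!
The upper bound: formulations of size `n ^ O(√k)`, continued.
-/

set_option autoImplicit false

namespace Pool.Agent.L5helper35.KH

open Finset
open Pool.Agent.L5helper58.KS
open Pool.Agent.L5helper35.MIP (Formulation)

/-- directions and offset -/
abbrev Pt (k : ℕ) : Type := {c : List (Option Bool) × ℕ // c ∈ (cfgs k).toFinset}

/-- nodes of the sweep -/
abbrev Wt (n k : ℕ) : Type := {v : List (ℕ × Trans) // v ∈ (nodesAll n k k).toFinset}

theorem nil_mem_all (n k : ℕ) : ([] : List (ℕ × Trans)) ∈ (nodesAll n k k).toFinset := by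
  rw [List.mem_toFinset]
  unfold nodesAll
  rw [mem_tups]
  exact ⟨Nat.zero_le _, fun c hc => absurd hc (by simp)⟩

/-- the order of the times -/
def ord {k : ℕ} (p : Pt k) : List ℕ := order p.1.1 (Nat.sqrt k + 1) p.1.2

/-- one step of the sweep -/
def Okk {n k : ℕ} (u : Tab n → Bool) (p : Pt k) (j : ℕ) (w : Wt n k) (e : Tab n) (w' : Wt n k) :
    Prop :=
  u e = true ∧ unB [1] p.1.1 ((ord p).getD j 0) (code e) = true ∧
    (w.1.all fun x => coB p.1.1 ((ord p).getD j 0) (code e) x.1 x.2) = true ∧
    w'.1 = (((ord p).getD j 0, code e) :: w.1).filter fun x =>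
      needB p.1.1 ((ord p).getD j 0 :: ((ord p).take j).reverse) x.1

theorem take_rev {O : List ℕ} {j : ℕ} (hj : j < O.length) :
    (O.take (j + 1)).reverse = O.getD j 0 :: (O.take j).reverse := by
  rw [List.take_succ_eq_append_getElem hj, List.reverse_append, List.getD_eq_getElem O 0 hj]
  rfl

/-- All nodes of the sweep of a computation are small. -/
theorem node_mem {n k : ℕ} {u : Tab n → Bool} {D : List (Option Bool)} (hk : D.length ≤ k)
    {δ : ℕ → Trans} (hg : Good (machineOf u) D δ) : ∃ r < Nat.sqrt k + 1, ∀ j,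
      nodeOf (needB D) ((order D (Nat.sqrt k + 1) r).take j).reverse δ ∈ (nodesAll n k k).toFinset := by
  classical
  obtain ⟨s, hs⟩ : ∃ s, s = Nat.sqrt k + 1 := ⟨_, rfl⟩
  have hs0 : 0 < s := by omega
  obtain ⟨r, hr, hcross⟩ := exists_offset (P := posN D) (m := D.length) hs0
    (fun i hi => (posN_step D hi).1) (fun i hi => (posN_step D hi).2)
  refine ⟨r, hs ▸ hr, fun j => ?_⟩
  rw [← hs]
  have hms : D.length / s ≤ s - 1 := by
    have h1 : D.length < s * s := by
      have := Nat.lt_succ_sqrt k
      rw [Nat.succ_eq_add_one, ← hs] at this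
      omega
    have h2 : D.length / s < s := Nat.div_lt_of_lt_mul h1
    omega
  have hpw := order_pairwise D s r
  rw [← List.take_append_drop j (order D s r), List.pairwise_append] at hpw
  have hndQ : ((order D s r).take j).reverse.Nodup :=
    List.nodup_reverse.mpr ((order_nodup D s r).sublist (List.take_sublist _ _))
  have hsub : ∀ i ∈ ((order D s r).take j).reverse, i < D.length := by
    intro i hi
    rw [List.mem_reverse] at hi
    exact (mem_order hr).mp (List.mem_of_mem_take hi)
  rw [List.mem_toFinset]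
  unfold nodesAll
  rw [mem_tups]
  constructor
  · unfold nodeOf
    rw [List.length_map, ← List.toFinset_card_of_nodup (hndQ.filter _)]
    have hfr := frontier (P := posN D) (m := D.length) (s := s) (r := r) hs0
      ((order D s r).take j).reverse.toFinset
      ((Finset.range D.length) \ ((order D s r).take j).reverse.toFinset)
      (fun i hi => hsub i (List.mem_toFinset.mp hi))
      (fun i hi => Finset.mem_range.mp (Finset.mem_sdiff.mp hi).1)
      (fun a ha b hb => by
        rw [List.mem_toFinset, List.mem_reverse] at ha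
        rw [Finset.mem_sdiff, List.mem_toFinset, Finset.mem_range, List.mem_reverse] at hb
        refine hpw.2.2 a ha b ?_
        have h1 : b ∈ order D s r := (mem_order hr).mpr hb.1
        rw [← List.take_append_drop j (order D s r), List.mem_append] at h1
        rcases h1 with h1 | h1
        · exact absurd h1 hb.2
        · exact h1)
    refine le_trans (le_trans (Finset.card_le_card ?_) hfr) ?_
    · intro i hi
      rw [List.mem_toFinset, List.mem_filter] at hi
      rw [Finset.mem_filter, List.mem_toFinset]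
      refine ⟨hi.1, ?_⟩
      have h1 := hi.2
      unfold needB at h1
      rw [List.any_eq_true] at h1
      obtain ⟨l, hl, h1⟩ := h1
      rw [Bool.and_eq_true, Bool.not_eq_true', decide_eq_false_iff_not] at h1
      have hl' := List.mem_range.mp hl
      refine ⟨l, ?_, (relB_iff (hsub i hi.1) hl').mp h1.2⟩
      rw [Finset.mem_sdiff, Finset.mem_range, List.mem_toFinset]
      exact ⟨hl', h1.1⟩
    · omega
  · intro c hc
    unfold nodeOf at hc
    rw [List.mem_map] at hc
    obtain ⟨i, hi, rfl⟩ := hc
    have hi' := hsub i (List.mem_of_mem_filter hi)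
    have h1 := (hg.1 i hi').1
    rw [mem_machineOf] at h1
    obtain ⟨e, -, he⟩ := h1
    rw [List.mem_flatMap]
    refine ⟨i, List.mem_range.mpr (by omega), List.mem_map.mpr ⟨e, by simp [places], ?_⟩⟩
    rw [he]

/-- The path of a computation. -/
theorem path_of_comp {n k : ℕ} (e0 : Tab n) (u : Tab n → Bool) (h : Comp u k) :
    ∃ (p : Pt k) (nd : ℕ → Wt n k) (lb : ℕ → Tab n), 1 ≤ p.1.1.length ∧
      nd 0 = ⟨[], nil_mem_all n k⟩ ∧
      (∀ j < p.1.1.length, Okk u p j (nd j) (lb j) (nd (j + 1))) ∧
      ∀ x, (forbidden x h.1 : ℝ) = ∑ j ∈ range p.1.1.length, co x (lb j) := by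
  obtain ⟨l, hlk, hu, c, hc, hs⟩ := h
  let δ : ℕ → Trans := fun i => code (l.getD i e0)
  obtain ⟨hv, hrun⟩ := valid_of_leads e0 hu hc δ fun _ => rfl
  have hl1 : 1 ≤ l.length := by
    rcases Nat.eq_zero_or_pos l.length with h0 | h0
    · rw [h0] at hrun
      have h1 : c.state = 0 := by
        rw [← hrun]
        rfl
      rw [hs] at h1
      exact absurd h1 (by norm_num)
    · exact h0
  let D : List (Option Bool) := l.map fun e => e.2.2.2.2
  have hD : D.length = l.length := List.length_map _
  have hDi : ∀ i < D.length, (δ i).2.2.2.2 = D.getD i none := by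
    intro i hi
    have hi' : i < l.length := by omega
    change (code (l.getD i e0)).2.2.2.2 = _
    rw [List.getD_eq_getElem l e0 hi', List.getD_eq_getElem D none hi]
    simp only [D, List.getElem_map]
    rfl
  have hg : Good (machineOf u) D δ := by
    refine good_of_valid hDi ?_ ?_
    · rw [hD]
      exact hv
    · rw [hD, hrun, hs]
      exact List.mem_singleton.mpr rfl
  obtain ⟨r, hr, hnode⟩ := node_mem (k := k) (by rw [hD]; exact hlk) hg
  have hpm : ((D, r) : List (Option Bool) × ℕ) ∈ (cfgs k).toFinset := by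
    rw [List.mem_toFinset, mem_cfgs]
    refine ⟨fun h0 => ?_, by rw [hD]; exact hlk, hr⟩
    have h1 : D.length = 0 := by
      rw [show D = [] from h0]
      rfl
    omega
  let p : Pt k := ⟨(D, r), hpm⟩
  have hmem : ∀ i, i ∈ ord p ↔ i < D.length := fun i => mem_order hr
  have hnd : (ord p).Nodup := order_nodup D _ r
  have hperm := fun g => sum_perm hnd hmem g
  have hlen : (ord p).length = D.length := (hperm fun _ => 0).1
  have hgs := (hg.1)
  have hgetO : ∀ j < D.length, (ord p).getD j 0 < D.length := by
    intro j hj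
    rw [List.getD_eq_getElem _ _ (by omega)]
    exact (hmem _).mp (List.getElem_mem _)
  refine ⟨p, fun j => ⟨nodeOf (needB D) ((ord p).take j).reverse δ, hnode j⟩,
    fun j => l.getD ((ord p).getD j 0) e0, by change 1 ≤ D.length; omega, rfl, ?_, ?_⟩
  · intro j hj
    have hj' : j < D.length := hj
    have hi := hgetO j hj'
    have hnotmem : (ord p).getD j 0 ∉ ((ord p).take j).reverse := by
      have h1 : ((ord p).take (j + 1)).reverse.Nodup :=
        List.nodup_reverse.mpr (hnd.sublist (List.take_sublist _ _))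
      rw [take_rev (by omega), List.nodup_cons] at h1
      exact h1.1
    refine ⟨?_, (hg.1 _ hi).2, ?_, ?_⟩
    · refine hu _ ?_
      change l.getD ((ord p).getD j 0) e0 ∈ l
      rw [List.getD_eq_getElem l e0 (by omega)]
      exact List.getElem_mem _
    · rw [List.all_eq_true]
      intro x hx
      change x ∈ nodeOf (needB D) ((ord p).take j).reverse δ at hx
      unfold nodeOf at hx
      rw [List.mem_map] at hx
      obtain ⟨i, hi2, rfl⟩ := hx
      have hi3 := List.mem_of_mem_filter hi2
      have hi4 : i < D.length := by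
        rw [List.mem_reverse] at hi3
        exact (hmem i).mp (List.mem_of_mem_take hi3)
      have hne : (ord p).getD j 0 ≠ i := fun h => hnotmem (h ▸ hi3)
      change coB D ((ord p).getD j 0) (δ ((ord p).getD j 0)) i (δ i) = true
      rcases lt_or_gt_of_ne hne with h | h
      · rw [coB_lt _ _ h]
        exact hg.2 _ _ h hi4
      · rw [coB_gt _ _ h]
        exact hg.2 _ _ h hi
    · change nodeOf (needB D) ((ord p).take (j + 1)).reverse δ = List.filter (fun x =>
        needB D ((ord p).getD j 0 :: ((ord p).take j).reverse) x.1)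
          (((ord p).getD j 0, δ ((ord p).getD j 0)) :: nodeOf (needB D) ((ord p).take j).reverse δ)
      rw [take_rev (by omega)]
      exact (nodeOf_cons (needB D) (fun i _ h => need_mono h)).symm
  · intro x
    change (forbidden x l : ℝ) = ∑ j ∈ range D.length, co x (l.getD ((ord p).getD j 0) e0)
    rw [forbidden_eq x e0 l, (hperm fun i => co x (l.getD i e0)).2, hD]

/-- The computation of a path. -/
theorem comp_of_path {n k : ℕ} (u : Tab n → Bool) (p : Pt k)
    (nd : ℕ → Wt n k) (lb : ℕ → Tab n) (h0 : nd 0 = ⟨[], nil_mem_all n k⟩)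
    (hok : ∀ j < p.1.1.length, Okk u p j (nd j) (lb j) (nd (j + 1))) :
    ∃ h : Comp u k, ∀ x, (forbidden x h.1 : ℝ) = ∑ j ∈ range p.1.1.length, co x (lb j) := by
  classical
  obtain ⟨⟨D, r⟩, hp⟩ := p
  set p : Pt k := ⟨(D, r), hp⟩ with hpd
  have hp' := hp
  rw [List.mem_toFinset, mem_cfgs] at hp'
  obtain ⟨hD0, hDk, hr⟩ := hp'
  simp only at hD0 hDk hr
  change ∀ j < D.length, _ at hok
  have hmem : ∀ i, i ∈ ord p ↔ i < D.length := fun i => mem_order hr
  have hnd : (ord p).Nodup := order_nodup D _ r
  have hperm := fun g => sum_perm hnd hmem g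
  have hlen : (ord p).length = D.length := (hperm fun _ => 0).1
  let un' : ℕ → Trans → Bool := fun i t => unB [1] D i t &&
    decide (∀ j < D.length, (ord p).getD j 0 = i → t = code (lb j))
  have hinjO : ∀ j j' : ℕ, j < D.length → j' < D.length → (ord p).getD j 0 = (ord p).getD j' 0 →
      j = j' := by
    intro j j' hj hj' h
    rw [List.getD_eq_getElem _ _ (by omega : j < (ord p).length),
      List.getD_eq_getElem _ _ (by omega : j' < (ord p).length)] at h
    exact (hnd.getElem_inj_iff).mp h
  -- the nodes are reached by the sweep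
  have hsw : ∀ j ≤ D.length, (nd j).1 ∈ sweep (machineOf u).1 (nodesAll n k k) un' (coB D) (needB D)
      ((ord p).take j).reverse := by
    intro j
    induction j with
    | zero =>
      intro _
      rw [h0]
      exact List.mem_singleton.mpr rfl
    | succ j ih =>
      intro hj
      have h1 := ih (by omega)
      rw [take_rev (by omega)]
      obtain ⟨g1, g2, g3, g4⟩ := hok j (by omega)
      change (nd (j + 1)).1 ∈ sweepStep (machineOf u).1 (nodesAll n k k) un' (coB D) (needB D)
        ((ord p).getD j 0 :: ((ord p).take j).reverse) ((ord p).getD j 0)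
        (sweep (machineOf u).1 (nodesAll n k k) un' (coB D) (needB D) ((ord p).take j).reverse)
      unfold sweepStep
      rw [List.mem_filter, List.any_eq_true]
      refine ⟨List.mem_toFinset.mp (nd (j + 1)).2, _, h1, ?_⟩
      rw [List.any_eq_true]
      refine ⟨code (lb j), (mem_machineOf u _).mpr ⟨lb j, g1, rfl⟩, ?_⟩
      refine Bool.and_eq_true_iff.mpr ⟨?_, Bool.and_eq_true_iff.mpr ⟨g3, decide_eq_true g4⟩⟩
      refine Bool.and_eq_true_iff.mpr ⟨g2, decide_eq_true fun j' hj' hjj => ?_⟩
      rw [hinjO j' j hj' (by omega) hjj]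
  have hfull := hsw D.length le_rfl
  rw [List.take_of_length_le (by omega)] at hfull
  have hmem' : ∀ i, i ∈ (ord p).reverse ↔ i < D.length := fun i => by
    rw [List.mem_reverse, hmem]
  have hnd' : ((ord p).reverse).Nodup := List.nodup_reverse.mpr hnd
  obtain ⟨δ, hδ, -⟩ := sweep_sound (machineOf u).1 (nodesAll n k k) un' (coB D) (needB D) _ hnd'
    (fun i Q _ j _ hj => need_mono hj)
    (fun i Q hQ j hj hjn t t' => by
      have hi : i ∈ (ord p).reverse := hQ.subset (by simp)
      have hnd'' := (hQ.sublist.nodup hnd')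
      rw [List.nodup_cons] at hnd''
      exact co_of_not_need ((hmem' i).mp hi) hnd''.1 hj hjn t t') _ hfull
  rw [Sats_iff] at hδ
  have hun : ∀ i < D.length, unB [1] D i (δ i) = true ∧
      ∀ j < D.length, (ord p).getD j 0 = i → δ i = code (lb j) := by
    intro i hi
    have h1 := (hδ.1 i ((hmem' i).mpr hi)).2
    simp only [un'] at h1
    rw [Bool.and_eq_true, decide_eq_true_iff] at h1
    exact h1
  have hg : Good (machineOf u) D δ := by
    refine ⟨fun i hi => ⟨(hδ.1 i ((hmem' i).mpr hi)).1, (hun i hi).1⟩, fun i j hij hj => ?_⟩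
    have := coB_symm D δ
    have := hδ.2.forall ((hmem' i).mpr (by omega)) ((hmem' j).mpr hj) (by omega)
    rwa [coB_lt _ _ hij] at this
  obtain ⟨hv, hf⟩ := valid_of_good hD0 hg
  have hex : ∀ i, ∃ e : Tab n, i < D.length → u e = true ∧ δ i = code e := by
    intro i
    by_cases hi : i < D.length
    · have h1 := (hg.1 i hi).1
      rw [mem_machineOf] at h1
      obtain ⟨e, he, h2⟩ := h1
      exact ⟨e, fun _ => ⟨he, h2.symm⟩⟩
    · exact ⟨lb 0, fun h => absurd h hi⟩
  choose e he using hex
  have hlead := leads_of_valid hv e (fun i hi => (he i hi).2)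
  refine ⟨⟨(List.range D.length).map e, ?_, ?_, _, hlead, ?_⟩, fun x => ?_⟩
  · rw [List.length_map, List.length_range]
    exact hDk
  · intro t ht
    rw [List.mem_map] at ht
    obtain ⟨i, hi, rfl⟩ := ht
    exact (he i (List.mem_range.mp hi)).1
  · exact List.mem_singleton.mp hf
  · change (forbidden x ((List.range D.length).map e) : ℝ) = ∑ j ∈ range D.length, co x (lb j)
    rw [forbidden_eq x (lb 0), List.length_map, List.length_range]
    have h1 : ∀ i ∈ range D.length, co x (((List.range D.length).map e).getD i (lb 0)) =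
        co x (e i) := by
      intro i hi
      rw [mem_range] at hi
      rw [List.getD_eq_getElem _ _ (by rw [List.length_map, List.length_range]; exact hi),
        List.getElem_map, List.getElem_range]
    rw [Finset.sum_congr rfl h1, ← (hperm fun i => co x (e i)).2]
    refine Finset.sum_congr rfl fun j hj => ?_
    rw [mem_range] at hj
    have hi : (ord p).getD j 0 < D.length := by
      rw [List.getD_eq_getElem _ _ (by omega)]
      exact (hmem _).mp (List.getElem_mem _)
    have h2 := (hun _ hi).2 j hj rfl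
    rw [(he _ hi).2] at h2
    rw [code_injective h2]

/-- The upper bound. -/
theorem upper_main (n k : ℕ) (hn : 1 ≤ n) (u : Tab n → Bool) :
    ∃ F : Formulation (Comp u k),
      F.size ≤ (4 ^ k * (Nat.sqrt k + 1) * (6 * k + 2) * (3 * k + 1) ^ (4 * (Nat.sqrt k + 1))) *
        n ^ (20 * (Nat.sqrt k + 1)) ∧
      ∀ (x : Tab n → Bool) (γ : ℝ), (∀ h : Comp u k, γ ≤ forbidden x h.1) →
        F.Certifies (fun h => (forbidden x h.1 : ℝ)) γ := by
  classical
  let e0 : Tab n := (⟨0, hn⟩, ⟨0, hn⟩, ⟨0, hn⟩, ⟨0, hn⟩, none)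
  choose p nd lb h1 h2 h3 h4 using fun h : Comp u k => path_of_comp e0 u h
  obtain ⟨F, hF, hC⟩ := path_formulation (H := Comp u k) (P := Pt k) (W := Wt n k) (Lb := Tab n) k
    (fun p => p.1.1.length) (fun p => by
      have hp := p.2
      rw [List.mem_toFinset, mem_cfgs] at hp
      exact hp.2.1) (fun p => Okk u p) (fun _ => ⟨[], nil_mem_all n k⟩) p nd lb h1 h2 h3
  refine ⟨F, ?_, ?_⟩
  · rw [hF]
    have c1 : Fintype.card (Pt k) ≤ 4 ^ k * (Nat.sqrt k + 1) := by
      rw [Fintype.card_coe]
      exact (List.toFinset_card_le _).trans (length_cfgs k)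
    have c2 : Fintype.card (Wt n k) ≤ (k * (3 * n ^ 4) + 1) ^ (2 * (Nat.sqrt k + 1)) := by
      rw [Fintype.card_coe]
      exact (List.toFinset_card_le _).trans (length_nodesAll le_rfl)
    have c3 : Fintype.card (Tab n) = 3 * n ^ 4 := by
      simp
      ring
    rw [c3]
    have key := upper_arith (n := n) (k := k) (s := Nat.sqrt k + 1) (G := Fintype.card (Pt k)) hn rfl c1
    refine le_trans ?_ key
    set B := (k * (3 * n ^ 4) + 1) ^ (2 * (Nat.sqrt k + 1)) with hB
    have hB1 : 1 ≤ B := Nat.one_le_pow _ _ (Nat.succ_pos _)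
    set G := Fintype.card (Pt k)
    set w := Fintype.card (Wt n k)
    have e1 : k * (w * (3 * n ^ 4 * w)) ≤ k * (B * (3 * n ^ 4 * B)) := by gcongr
    calc G * (k * (w * (3 * n ^ 4 * w)) + 1) ≤ G * (k * (B * (3 * n ^ 4 * B)) + 1) :=
          Nat.mul_le_mul_left _ (Nat.add_le_add_right e1 1)
      _ = G * (k * (B * (B * (3 * n ^ 4)))) + G * 1 := by ring
      _ ≤ G * (k * (B * (2 * (B * (3 * n ^ 4))))) + 2 * (G * B) := by
          refine Nat.add_le_add ?_ ?_
          · refine Nat.mul_le_mul_left _ (Nat.mul_le_mul_left _ (Nat.mul_le_mul_left _ ?_))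
            omega
          · nlinarith [Nat.mul_le_mul_left G hB1]
  · intro x γ hγ
    refine hC (co x) _ γ (fun e => ?_) (fun h => h4 h x) (fun p nd lb hp h0 hok => ?_)
    · unfold co
      split_ifs <;> norm_num
    · obtain ⟨h, hh⟩ := comp_of_path u p nd lb h0 hok
      rw [← hh x]
      exact hγ h

end Pool.Agent.L5helper35.KH
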